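import Mathlib

/-!
# Permutations of two-power order and alternating sums
-/

set_option autoImplicit false

open Finset Function

namespace Pool.Agent.MP_c46de2_gt

/-- products of a cocycle along an orbit -/
theorem cocycle_split {X M : Type*} [CommGroup M] (π : Equiv.Perm X) (ε : X → M) (x : X) (a b : ℕ) :
    ∏ j ∈ range (a + b), ε ((π ^ j) x) =
      (∏ j ∈ range a, ε ((π ^ j) x)) * ∏ j ∈ range b, ε ((π ^ j) ((π ^ a) x)) := by
  rw [prod_range_add]
  congr 1
  refine prod_congr rfl fun j _ => ?_
  rw [← Equiv.Perm.mul_apply, ← pow_add, add_comm]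

/-- A cocycle whose products around all the cycles are trivial is a coboundary. -/
theorem exists_coboundary {X M : Type*} [Finite X] [CommGroup M] (π : Equiv.Perm X) (ε : X → M)
    (h : ∀ (x : X) (n : ℕ), (π ^ n) x = x → ∏ j ∈ range n, ε ((π ^ j) x) = 1) :
    ∃ δ : X → M, ∀ x, δ (π x) = δ x * ε x := by
  classical
  have hrep : ∀ x : X, ∃ n : ℕ,
      (π ^ n) (Quotient.out (Quotient.mk (Equiv.Perm.SameCycle.setoid π) x)) = x := by
    intro x
    have h1 : Equiv.Perm.SameCycle π
        (Quotient.out (Quotient.mk (Equiv.Perm.SameCycle.setoid π) x)) x :=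
      Quotient.mk_out (s := Equiv.Perm.SameCycle.setoid π) x
    obtain ⟨n, hn⟩ := h1.exists_nat_pow_eq
    exact ⟨n, hn⟩
  choose n hn using hrep
  -- independence of the exponent
  have key : ∀ (r : X) (a b : ℕ), (π ^ a) r = (π ^ b) r →
      ∏ j ∈ range a, ε ((π ^ j) r) = ∏ j ∈ range b, ε ((π ^ j) r) := by
    have key' : ∀ (r : X) (a c : ℕ), (π ^ a) r = (π ^ (a + c)) r →
        ∏ j ∈ range a, ε ((π ^ j) r) = ∏ j ∈ range (a + c), ε ((π ^ j) r) := by
      intro r a c hac
      rw [cocycle_split, h ((π ^ a) r) c, mul_one]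
      rw [← Equiv.Perm.mul_apply, ← pow_add, add_comm c a]
      exact hac.symm
    intro r a b hab
    rcases le_total a b with hle | hle
    · obtain ⟨c, rfl⟩ := Nat.exists_eq_add_of_le hle
      exact key' r a c hab
    · obtain ⟨c, rfl⟩ := Nat.exists_eq_add_of_le hle
      exact (key' r b c hab.symm).symm
  refine ⟨fun x => ∏ j ∈ range (n x),
    ε ((π ^ j) (Quotient.out (Quotient.mk (Equiv.Perm.SameCycle.setoid π) x))), fun x => ?_⟩
  have hq : Quotient.mk (Equiv.Perm.SameCycle.setoid π) (π x) =
      Quotient.mk (Equiv.Perm.SameCycle.setoid π) x := by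
    apply Quotient.sound
    exact (Equiv.Perm.sameCycle_apply_left.2 (Equiv.Perm.SameCycle.refl π x))
  have h1 := hn (π x)
  have h2 := hn x
  dsimp only
  rw [hq] at h1 ⊢
  set r := Quotient.out (Quotient.mk (Equiv.Perm.SameCycle.setoid π) x) with hr
  have h3 : (π ^ n (π x)) r = (π ^ (n x + 1)) r := by
    rw [h1, add_comm, pow_add, pow_one, Equiv.Perm.mul_apply, h2]
  rw [key r _ _ h3, prod_range_succ, h2]

/-- the product of a cocycle whose products around all the cycles are trivial -/
theorem prod_eq_one_of_cocycle {X M : Type*} [Fintype X] [CommGroup M] (π : Equiv.Perm X)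
    (ε : X → M)
    (h : ∀ (x : X) (n : ℕ), (π ^ n) x = x → ∏ j ∈ range n, ε ((π ^ j) x) = 1) :
    ∏ x, ε x = 1 := by
  obtain ⟨δ, hδ⟩ := exists_coboundary π ε h
  have h1 : ∏ x, δ (π x) = ∏ x, δ x := Equiv.prod_comp π δ
  have h2 : ∏ x, δ (π x) = (∏ x, δ x) * ∏ x, ε x := by
    rw [← prod_mul_distrib]
    exact prod_congr rfl fun x _ => hδ x
  rw [h1] at h2
  exact (mul_eq_left.1 h2.symm)

/-- Alternating sums over cycles of even length vanish. -/
theorem sum_eq_zero_of_even {X G : Type*} [Fintype X] [AddCommGroup G] (π : Equiv.Perm X)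
    (F : X → G) (hF : ∀ x, F (π x) = - F x)
    (h : ∀ (x : X) (n : ℕ), (π ^ n) x = x → Even n) : ∑ x, F x = 0 := by
  classical
  obtain ⟨δ, hδ⟩ := exists_coboundary π (fun _ : X => (-1 : ℤˣ)) (by
    intro x n hn
    rw [prod_const, card_range]
    exact (h x n hn).neg_one_pow)
  have hsplit : ∀ x, F x = (if δ x = 1 then F x else 0) + (if δ x = 1 then 0 else F x) := by
    intro x
    split_ifs <;> simp
  rw [sum_congr rfl fun x _ => hsplit x, sum_add_distrib]
  have h2 : ∑ x, (if δ x = 1 then (0 : G) else F x) = ∑ x, (if δ x = 1 then - F x else 0) := by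
    rw [← Equiv.sum_comp π fun x => (if δ x = 1 then (0 : G) else F x)]
    refine sum_congr rfl fun x _ => ?_
    rw [hF, hδ]
    rcases Int.units_eq_one_or (δ x) with h3 | h3
    · rw [h3]
      simp
    · rw [h3]
      simp
  rw [h2, ← sum_add_distrib]
  refine sum_eq_zero fun x _ => ?_
  split_ifs <;> simp

/-- For a permutation of two-power order only the fixed points contribute to an alternating
sum. -/
theorem sum_eq_sum_fixed {X G : Type*} [Fintype X] [DecidableEq X] [AddCommGroup G]
    (π : Equiv.Perm X)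
    (F : X → G) (hF : ∀ x, F (π x) = - F x) (s : ℕ) (hs : π ^ (2 ^ s) = 1) :
    ∑ x, F x = ∑ x with π x = x, F x := by
  classical
  rw [← sum_filter_add_sum_filter_not univ (fun x => π x = x) F]
  have hz : ∑ x with ¬ π x = x, F x = 0 := by
    have hstab : ∀ x, (¬ π x = x) ↔ ¬ π (π x) = π x := by
      intro x
      rw [π.injective.eq_iff]
    rw [sum_subtype (p := fun x => ¬ π x = x) _ (by simp)]
    refine sum_eq_zero_of_even (π.subtypePerm (p := fun x => ¬ π x = x)
      (fun x => (hstab x).symm)) _ (fun x => ?_) ?_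
    · change F (π x) = _
      exact hF x
    · intro x n hn
      by_contra hodd
      rw [Nat.not_even_iff_odd] at hodd
      apply x.2
      have h1 : (π ^ n) (x : X) = x := by
        have h2 := congrArg Subtype.val hn
        rw [Equiv.Perm.subtypePerm_pow] at h2
        exact h2
      -- `n` odd, `2 ^ s` coprime
      have hcop : Nat.Coprime n (2 ^ s) := (Nat.coprime_two_right.2 hodd).pow_right s
      have hp1 : IsPeriodicPt π n (x : X) := by
        unfold IsPeriodicPt IsFixedPt
        rw [Equiv.Perm.iterate_eq_pow]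
        exact h1
      have hp2 : IsPeriodicPt π (2 ^ s) (x : X) := by
        unfold IsPeriodicPt IsFixedPt
        rw [Equiv.Perm.iterate_eq_pow, hs]
        rfl
      have h3 := hp1.gcd hp2
      rw [hcop] at h3
      exact h3
  rw [hz, add_zero]

end Pool.Agent.MP_c46de2_gt
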