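import Mathlib

/-!
# Vertex-oriented trivalent graphs and the relations AS and IHX over the integers
-/

set_option autoImplicit false

open Equiv

namespace Pool.Agent.MP_c46de2_gt

/-- A vertex-oriented trivalent graph with vertex set `V`. The half-edges at the vertex `v` are
`(v, 0)`, `(v, 1)`, `(v, 2)`, in the cyclic order which is the orientation of `v`; `mate` is the
involution without fixed points which sends every half-edge to the other half of its edge.
Loops, multiple edges and disconnected graphs are allowed. -/
@[ext] structure TriGraph (V : Type) where
  /-- the other half of an edge -/
  mate : Perm (V × Fin 3)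
  mate_mate : ∀ h, mate (mate h) = h
  mate_ne : ∀ h, mate h ≠ h

/-- The next half-edge at the same vertex, in the cyclic order. -/
def next {V : Type} (h : V × Fin 3) : V × Fin 3 := (h.1, h.2 + 1)

namespace TriGraph
variable {V : Type}

/-- The graph obtained by moving the half-edges by the permutation `π`: the half-edges `π h` and
`π k` are the two halves of an edge of the new graph if and only if `h` and `k` are the two halves
of an edge of the old graph (whereas the vertices and their orientations stay where they are). -/
def conj (Γ : TriGraph V) (π : Perm (V × Fin 3)) : TriGraph V where
  mate := π * Γ.mate * π⁻¹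
  mate_mate h := by simp [Γ.mate_mate]
  mate_ne h e := by
    apply Γ.mate_ne (π⁻¹ h)
    apply π.injective
    simpa using e

/-- The rotation of three of the four half-edges next to the edge `{h, mate h}` (the fourth one is
`next h`). -/
def rotation [DecidableEq V] (Γ : TriGraph V) (h : V × Fin 3) : Perm (V × Fin 3) :=
  swap (next (next h)) (next (Γ.mate h)) * swap (next (Γ.mate h)) (next (next (Γ.mate h)))

end TriGraph

/-- A function on the vertex-oriented trivalent graphs with vertex set `V`, with values in an
abelian group, which is invariant under isomorphisms and satisfies the relations AS and IHX.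

* `relabel`: for a permutation `β` of the vertices and permutations `γ v` of the half-edges at the
  vertices, the relabelled graph has the value `∏ v, sign (γ v)` times the value of the graph. For
  even permutations `γ v` (rotations of the cyclic orders) this is the invariance under
  isomorphisms of vertex-oriented graphs; for a transposition at one vertex it is AS.
* `ihx`: for an edge `{h, mate h}` which is not a loop, with the neighbouring half-edges `a = next h`,
  `b = next a` at one end and `c = next (mate h)`, `d = next c` at the other end, the sum of the
  values of the three graphs obtained by rotating `b`, `c`, `d` is zero (this is the Jacobi identity,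
  that is, IHX). -/
structure IsWeight {V G : Type} [Fintype V] [DecidableEq V] [AddCommGroup G]
    (w : TriGraph V → G) : Prop where
  relabel : ∀ (Γ : TriGraph V) (β : Perm V) (γ : V → Perm (Fin 3)),
    w (Γ.conj (prodShear β γ)) = ((∏ v, Perm.sign (γ v) : ℤˣ) : ℤ) • w Γ
  ihx : ∀ (Γ : TriGraph V) (h : V × Fin 3), (Γ.mate h).1 ≠ h.1 →
    w Γ + w (Γ.conj (Γ.rotation h)) + w (Γ.conj (Γ.rotation h)⁻¹) = 0

/-- An odd automorphism: a permutation `β` of the vertices together with bijections `γ v` from the
half-edges at `v` to the half-edges at `β v` which maps edges to edges and which reverses the
orientation at an odd number of vertices. -/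
def HasOddAut {V : Type} [Fintype V] (Γ : TriGraph V) : Prop :=
  ∃ (β : Perm V) (γ : V → Perm (Fin 3)),
    (∀ h, Γ.mate (prodShear β γ h) = prodShear β γ (Γ.mate h)) ∧ ∏ v, Perm.sign (γ v) = -1

end Pool.Agent.MP_c46de2_gt
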