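import Pool.Agent.MP_c46de2_gt.Loc

/-!
# The expansion along an orbit of edges
-/

set_option autoImplicit false
set_option linter.unusedSectionVars false

open Equiv
open Function (Injective update)

namespace Pool.Agent.MP_c46de2_gt

variable {V : Type} [Fintype V] [DecidableEq V]

/-- An edge `{h, k}` of `Γ` whose orbit under the automorphism `π` consists of `m` pairwise
disjoint edges which are not loops; `z` is the action of `π ^ m` on the four neighbouring
half-edges. -/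
structure Orb (Γ : TriGraph V) (π : Perm (V × Fin 3)) (h k : V × Fin 3) (m : ℕ)
    (z : Perm (Fin 4)) (hk : h.1 ≠ k.1) : Prop where
  mate : Γ.mate h = k
  comm : Commute π Γ.mate
  rel : IsRel π (-1)
  pos : 0 < m
  d1 : ∀ i j, i < m → j < m → ((π ^ i) h).1 = ((π ^ j) h).1 → i = j
  d2 : ∀ i j, i < m → j < m → ((π ^ i) k).1 = ((π ^ j) k).1 → i = j
  d3 : ∀ i j, i < m → j < m → ((π ^ i) h).1 ≠ ((π ^ j) k).1
  act : ∀ s, (π ^ m) (out h k hk s) = out h k hk (z s)

namespace Orb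
variable {Γ : TriGraph V} {π : Perm (V × Fin 3)} {h k : V × Fin 3} {m : ℕ}
    {z : Perm (Fin 4)} {hk : h.1 ≠ k.1}

theorem vertex (O : Orb Γ π h k m z hk) (i : ℕ) (s : Fin 4) :
    ((π ^ i) (out h k hk s)).1 = ((π ^ i) h).1 ∨ ((π ^ i) (out h k hk s)).1 = ((π ^ i) k).1 := by
  rcases out_vertex h k hk s with e | e
  · left; exact (O.rel.pow i).fst e
  · right; exact (O.rel.pow i).fst e

theorem mate_pow (O : Orb Γ π h k m z hk) (j : ℕ) : Γ.mate ((π ^ j) h) = (π ^ j) k := by
  have h1 : Commute (π ^ j) Γ.mate := O.comm.pow_left j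
  have h2 := congrArg (fun f : Perm (V × Fin 3) => f h) h1.eq
  change (π ^ j) (Γ.mate h) = Γ.mate ((π ^ j) h) at h2
  rw [← h2, O.mate]

/-- the half-edges next to the edges of the orbit -/
def bigFun (π : Perm (V × Fin 3)) (h k : V × Fin 3) (m : ℕ) (hk : h.1 ≠ k.1) :
    (Σ _ : ZMod m, Fin 4) → V × Fin 3 := fun q => (π ^ q.1.val) (out h k hk q.2)

theorem bigFun_injective (O : Orb Γ π h k m z hk) : Injective (bigFun π h k m hk) := by
  have : NeZero m := ⟨O.pos.ne'⟩
  rintro ⟨i, s⟩ ⟨j, t⟩ e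
  change (π ^ i.val) (out h k hk s) = (π ^ j.val) (out h k hk t) at e
  have hi := ZMod.val_lt i
  have hj := ZMod.val_lt j
  have hij : i.val = j.val := by
    have e1 := congrArg Prod.fst e
    rcases O.vertex i.val s with h1 | h1 <;> rcases O.vertex j.val t with h2 | h2
    · rw [h1, h2] at e1; exact O.d1 _ _ hi hj e1
    · rw [h1, h2] at e1; exact absurd e1 (O.d3 _ _ hi hj)
    · rw [h1, h2] at e1; exact absurd e1.symm (O.d3 _ _ hj hi)
    · rw [h1, h2] at e1; exact O.d2 _ _ hi hj e1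
  have hij' : i = j := ZMod.val_injective m hij
  subst hij'
  have h3 := (out h k hk).injective ((π ^ i.val).injective e)
  rw [h3]

/-- the embedding -/
def big (O : Orb Γ π h k m z hk) : (Σ _ : ZMod m, Fin 4) ↪ V × Fin 3 :=
  ⟨bigFun π h k m hk, O.bigFun_injective⟩

theorem big_apply (O : Orb Γ π h k m z hk) (j : ZMod m) (s : Fin 4) :
    O.big ⟨j, s⟩ = (π ^ j.val) (out h k hk s) := rfl

theorem left_notMem (O : Orb Γ π h k m z hk) (j : ℕ) (hj : j < m) :
    (π ^ j) h ∉ Set.range O.big := by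
  have : NeZero m := ⟨O.pos.ne'⟩
  rintro ⟨⟨i, s⟩, e⟩
  rw [O.big_apply] at e
  have hi := ZMod.val_lt i
  have e1 := congrArg Prod.fst e
  rcases O.vertex i.val s with h1 | h1
  · rw [h1] at e1
    have h2 := O.d1 _ _ hi hj e1
    rw [h2] at e
    exact out_ne_left h k hk s ((π ^ j).injective e)
  · rw [h1] at e1
    exact absurd e1.symm (O.d3 _ _ hj hi)

theorem right_notMem (O : Orb Γ π h k m z hk) (j : ℕ) (hj : j < m) :
    (π ^ j) k ∉ Set.range O.big := by
  have : NeZero m := ⟨O.pos.ne'⟩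
  rintro ⟨⟨i, s⟩, e⟩
  rw [O.big_apply] at e
  have hi := ZMod.val_lt i
  have e1 := congrArg Prod.fst e
  rcases O.vertex i.val s with h1 | h1
  · rw [h1] at e1
    exact absurd e1 (O.d3 _ _ hi hj)
  · rw [h1] at e1
    have h2 := O.d2 _ _ hi hj e1
    rw [h2] at e
    exact out_ne_right h k hk s ((π ^ j).injective e)

/-- the permutations supported near the edges of the orbit -/
noncomputable def X (O : Orb Γ π h k m z hk) : (ZMod m → Perm (Fin 4)) →* Perm (V × Fin 3) :=
  (J O.big).comp (Perm.sigmaCongrRightHom fun _ : ZMod m => Fin 4)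

theorem X_big (O : Orb Γ π h k m z hk) (u : ZMod m → Perm (Fin 4)) (j : ZMod m) (s : Fin 4) :
    O.X u (O.big ⟨j, s⟩) = O.big ⟨j, u j s⟩ := J_apply O.big _ _

theorem X_notMem (O : Orb Γ π h k m z hk) (u : ZMod m → Perm (Fin 4)) (y : V × Fin 3)
    (hy : y ∉ Set.range O.big) : O.X u y = y := J_apply_of_notMem O.big _ _ hy

theorem X_mulSingle (O : Orb Γ π h k m z hk) (j : ZMod m) (e : Perm (Fin 4)) :
    O.X (Pi.mulSingle j e) = π ^ j.val * J (out h k hk) e * (π ^ j.val)⁻¹ := by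
  rw [J_conj]
  ext1 y
  by_cases hy : y ∈ Set.range O.big
  · obtain ⟨⟨i, s⟩, rfl⟩ := hy
    rw [O.X_big]
    by_cases hij : i = j
    · subst hij
      rw [Pi.mulSingle_eq_same]
      exact (J_apply ((out h k hk).trans (π ^ i.val).toEmbedding) e s).symm
    · rw [Pi.mulSingle_eq_of_ne hij, J_apply_of_notMem]
      · rfl
      · rintro ⟨t, ht⟩
        have h1 : O.big ⟨j, t⟩ = O.big ⟨i, s⟩ := ht
        have h2 := O.big.injective h1
        exact hij (congrArg Sigma.fst h2).symm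
  · rw [O.X_notMem _ _ hy, J_apply_of_notMem]
    rintro ⟨t, ht⟩
    exact hy ⟨⟨j, t⟩, ht⟩

theorem conj_X_mate (O : Orb Γ π h k m z hk) (u : ZMod m → Perm (Fin 4)) (j : ℕ) (hj : j < m) :
    (Γ.conj (O.X u)).mate ((π ^ j) h) = (π ^ j) k := by
  rw [TriGraph.conj_mate_of_fixed, O.mate_pow]
  · exact O.X_notMem _ _ (O.left_notMem j hj)
  · rw [O.mate_pow]
    exact O.X_notMem _ _ (O.right_notMem j hj)

variable {G : Type} [AddCommGroup G] {w : TriGraph V → G}

theorem unit_smul_smul (s : ℤˣ) (g : G) : (s : ℤ) • ((s : ℤ) • g) = g := by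
  rw [smul_smul, ← Units.val_mul, Int.units_mul_self]
  simp

/-- transport of local moves to the edge `{h, k}` -/
theorem localize (O : Orb Γ π h k m z hk) (hw : IsWeight w) (Γ' : TriGraph V) (j : ℕ)
    (hj : Γ'.mate ((π ^ j) h) = (π ^ j) k) :
    ∃ Γ'' : TriGraph V, Γ''.mate h = k ∧ ∀ e : Perm (Fin 4),
      w (Γ'.conj (π ^ j * J (out h k hk) e * (π ^ j)⁻¹)) =
        (((-1 : ℤˣ) ^ j : ℤˣ) : ℤ) • w (Γ''.conj (J (out h k hk) e)) := by
  refine ⟨Γ'.conj (π ^ j)⁻¹, ?_, fun e => ?_⟩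
  · have h1 := TriGraph.conj_mate Γ' (π ^ j)⁻¹ ((π ^ j) h)
    rw [hj] at h1
    simpa using h1
  · rw [TriGraph.conj_conj, mul_assoc, ← TriGraph.conj_conj]
    exact hw.rel (O.rel.pow j) _

theorem v4 (O : Orb Γ π h k m z hk) (hw : IsWeight w) (u : ZMod m → Perm (Fin 4)) (j : ZMod m)
    (v : Perm (Fin 4)) (hv : IsV4 v) :
    w (Γ.conj (O.X (Pi.mulSingle j v * u))) = w (Γ.conj (O.X u)) := by
  have : NeZero m := ⟨O.pos.ne'⟩
  obtain ⟨Γ'', h1, h2⟩ := O.localize hw (Γ.conj (O.X u)) j.val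
    (O.conj_X_mate u j.val (ZMod.val_lt j))
  have h3 := h2 v
  have h4 := h2 1
  rw [hw.v4 Γ'' h k hk h1 v hv] at h3
  rw [map_one, mul_one, mul_inv_cancel, TriGraph.conj_one, TriGraph.conj_one] at h4
  rw [map_mul, ← TriGraph.conj_conj, O.X_mulSingle, h3, h4]

theorem ihx (O : Orb Γ π h k m z hk) (hw : IsWeight w) (u : ZMod m → Perm (Fin 4)) (j : ZMod m) :
    w (Γ.conj (O.X u)) + w (Γ.conj (O.X (Pi.mulSingle j r3 * u))) +
      w (Γ.conj (O.X (Pi.mulSingle j r3⁻¹ * u))) = 0 := by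
  have : NeZero m := ⟨O.pos.ne'⟩
  obtain ⟨Γ'', h1, h2⟩ := O.localize hw (Γ.conj (O.X u)) j.val
    (O.conj_X_mate u j.val (ZMod.val_lt j))
  have h3 := h2 r3
  have h3' := h2 r3⁻¹
  have h4 := h2 1
  rw [map_one, mul_one, mul_inv_cancel, TriGraph.conj_one, TriGraph.conj_one] at h4
  rw [map_mul, map_mul, ← TriGraph.conj_conj, ← TriGraph.conj_conj, O.X_mulSingle, O.X_mulSingle,
    h3, h3', h4, ← smul_add, ← smul_add, hw.ihx' Γ'' h k hk h1, smul_zero]

/-- the shift of words of permutations -/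
def shiftU (z : Perm (Fin 4)) (u : ZMod m → Perm (Fin 4)) : ZMod m → Perm (Fin 4) :=
  fun j => if j = 0 then z * u (j - 1) * z⁻¹ else u (j - 1)

/-- the shift of the half-edges -/
def shiftS (m : ℕ) (z : Perm (Fin 4)) : Perm (Σ _ : ZMod m, Fin 4) where
  toFun q := ⟨q.1 + 1, (if q.1 + 1 = 0 then z else 1) q.2⟩
  invFun q := ⟨q.1 - 1, (if q.1 = 0 then z⁻¹ else 1) q.2⟩
  left_inv q := by
    obtain ⟨j, s⟩ := q
    dsimp only
    split_ifs <;> simp
  right_inv q := by
    obtain ⟨j, s⟩ := q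
    dsimp only
    rw [sub_add_cancel]
    split_ifs <;> simp

theorem conj_X (O : Orb Γ π h k m z hk) (u : ZMod m → Perm (Fin 4)) :
    π * O.X u * π⁻¹ = O.X (shiftU z u) := by
  have : NeZero m := ⟨O.pos.ne'⟩
  unfold X
  rw [MonoidHom.comp_apply, MonoidHom.comp_apply, J_conj, J_precomp O.big _ (shiftS m z)]
  · congr 1
    ext1 q
    obtain ⟨j, s⟩ := q
    change (shiftS m z) ((Perm.sigmaCongrRightHom _ u) ((shiftS m z)⁻¹ ⟨j, s⟩)) = _
    have e1 : (shiftS m z)⁻¹ ⟨j, s⟩ = ⟨j - 1, (if j = 0 then z⁻¹ else 1) s⟩ := rfl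
    rw [e1]
    change (⟨j - 1 + 1, (if j - 1 + 1 = 0 then z else 1)
      (u (j - 1) ((if j = 0 then z⁻¹ else 1) s))⟩ : Σ _ : ZMod m, Fin 4) = ⟨j, shiftU z u j s⟩
    rw [sub_add_cancel]
    unfold shiftU
    split_ifs
    · rfl
    · rfl
  · rintro ⟨j, s⟩
    change π ((π ^ j.val) (out h k hk s)) = (π ^ (j + 1).val)
      (out h k hk ((if j + 1 = 0 then z else 1) s))
    have hj := ZMod.val_lt j
    rw [← Perm.mul_apply, ← pow_succ']
    by_cases hlt : j.val + 1 < m
    · have e1 : (j + 1).val = j.val + 1 := by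
        have h1 : j + 1 = ((j.val + 1 : ℕ) : ZMod m) := by
          push_cast
          rw [ZMod.natCast_zmod_val]
        rw [h1, ZMod.val_natCast, Nat.mod_eq_of_lt hlt]
      have e2 : j + 1 ≠ 0 := by
        intro h2
        rw [h2, ZMod.val_zero] at e1
        omega
      rw [if_neg e2, e1]
      rfl
    · have e0 : j.val + 1 = m := by omega
      have e2 : j + 1 = 0 := by
        have h1 : j + 1 = ((j.val + 1 : ℕ) : ZMod m) := by
          push_cast
          rw [ZMod.natCast_zmod_val]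
        rw [h1, e0, ZMod.natCast_self]
      rw [if_pos e2, e2, ZMod.val_zero, pow_zero, e0, O.act]
      rfl

theorem conj_shift (O : Orb Γ π h k m z hk) (u : ZMod m → Perm (Fin 4)) :
    (Γ.conj (O.X u)).conj π = Γ.conj (O.X (shiftU z u)) := by
  calc (Γ.conj (O.X u)).conj π = Γ.conj (π * O.X u) := TriGraph.conj_conj _ _ _
    _ = Γ.conj ((π * O.X u * π⁻¹) * π) := by rw [inv_mul_cancel_right]
    _ = (Γ.conj π).conj (π * O.X u * π⁻¹) := (TriGraph.conj_conj _ _ _).symm
    _ = Γ.conj (O.X (shiftU z u)) := by rw [TriGraph.conj_eq_self Γ π O.comm, O.conj_X]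

theorem w_shift (O : Orb Γ π h k m z hk) (hw : IsWeight w) (u : ZMod m → Perm (Fin 4)) :
    w (Γ.conj (O.X (shiftU z u))) = - w (Γ.conj (O.X u)) := by
  rw [← O.conj_shift, hw.rel O.rel]
  simp

/-- the sign of `z` in `ZMod 3` -/
def eta (z : Perm (Fin 4)) : ZMod 3 := if Perm.sign z = 1 then 1 else 2

theorem eta_mul_self (z : Perm (Fin 4)) : eta z * eta z = 1 := by
  unfold eta
  split_ifs <;> decide

theorem r3_conj : ∀ (z : Perm (Fin 4)) (x : ZMod 3),
    IsV4 (z * r3 ^ x.val * z⁻¹ * (r3 ^ (eta z * x).val)⁻¹) := by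
  decide +kernel

/-- the word of permutations of a word -/
def wd (c : ZMod m → ZMod 3) : ZMod m → Perm (Fin 4) := fun j => r3 ^ (c j).val

theorem main (O : Orb Γ π h k m z hk) (hw : IsWeight w) (a : ℕ) (hm : m = 2 ^ a) :
    (Perm.sign z ≠ 1 → w Γ = 0) ∧
      (Perm.sign z = 1 → w Γ = (-1 : ℤ) ^ m • (w (Γ.conj (O.X (fun _ => r3))) +
        w (Γ.conj (O.X (fun _ => r3 ^ 2))))) := by
  have : NeZero m := ⟨O.pos.ne'⟩
  have h1 := sum_shift m a hm (eta z) (eta_mul_self z) (fun c => w (Γ.conj (O.X (wd c)))) ?_ ?_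
  · have e0 : w (Γ.conj (O.X (wd (0 : ZMod m → ZMod 3)))) = w Γ := by
      have : wd (0 : ZMod m → ZMod 3) = 1 := by
        funext j
        simp [wd]
      rw [this, map_one, TriGraph.conj_one]
    have e1 : wd (fun _ : ZMod m => (1 : ZMod 3)) = fun _ => r3 := by
      funext j
      simp [wd, ZMod.val_one]
    have e2 : wd (fun _ : ZMod m => (2 : ZMod 3)) = fun _ => r3 ^ 2 := by
      funext j
      rfl
    rw [e0, e1, e2] at h1
    refine ⟨fun hz => h1.1 ?_, fun hz => h1.2 ?_⟩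
    · unfold eta
      rw [if_neg hz]
      decide
    · unfold eta
      rw [if_pos hz]
  · intro c j
    have h2 := O.ihx hw (wd (update c j 0)) j
    have e1 : Pi.mulSingle j r3 * wd (update c j 0) = wd (update c j 1) := by
      funext i
      rw [Pi.mul_apply]
      by_cases hij : i = j
      · subst hij
        rw [Pi.mulSingle_eq_same]
        unfold wd
        rw [Function.update_self, Function.update_self]
        decide
      · rw [Pi.mulSingle_eq_of_ne hij, one_mul]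
        unfold wd
        rw [Function.update_of_ne hij, Function.update_of_ne hij]
    have e2 : Pi.mulSingle j r3⁻¹ * wd (update c j 0) = wd (update c j 2) := by
      funext i
      rw [Pi.mul_apply]
      by_cases hij : i = j
      · subst hij
        rw [Pi.mulSingle_eq_same]
        unfold wd
        rw [Function.update_self, Function.update_self]
        decide
      · rw [Pi.mulSingle_eq_of_ne hij, one_mul]
        unfold wd
        rw [Function.update_of_ne hij, Function.update_of_ne hij]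
    rw [e1, e2] at h2
    exact h2
  · intro c
    have h2 := O.w_shift hw (wd c)
    have h3 := r3_conj z (c (0 - 1))
    have e1 : shiftU z (wd c) =
        Pi.mulSingle 0 (z * r3 ^ (c (0 - 1)).val * z⁻¹ * (r3 ^ (eta z * c (0 - 1)).val)⁻¹) *
          wd (shift m (eta z) (eta_mul_self z) c) := by
      funext i
      rw [Pi.mul_apply]
      unfold shiftU wd
      rw [shift_apply]
      by_cases hi : i = 0
      · subst hi
        rw [Pi.mulSingle_eq_same, if_pos rfl, if_pos rfl, inv_mul_cancel_right]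
      · rw [Pi.mulSingle_eq_of_ne hi, if_neg hi, if_neg hi, one_mul, one_mul]
    rw [e1, O.v4 hw _ _ _ h3] at h2
    exact h2

/-- the new graphs are preserved up to an element of the four-group -/
theorem conj_const (O : Orb Γ π h k m z hk) (ρ : Perm (Fin 4)) :
    (Γ.conj (O.X (fun _ => ρ))).conj π =
      (Γ.conj (O.X (fun _ => ρ))).conj (J (out h k hk) (z * ρ * z⁻¹ * ρ⁻¹)) := by
  have : NeZero m := ⟨O.pos.ne'⟩
  rw [O.conj_shift, TriGraph.conj_conj]
  have e1 : shiftU z (fun _ : ZMod m => ρ) =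
      Pi.mulSingle 0 (z * ρ * z⁻¹ * ρ⁻¹) * fun _ => ρ := by
    funext i
    rw [Pi.mul_apply]
    unfold shiftU
    by_cases hi : i = 0
    · subst hi
      rw [Pi.mulSingle_eq_same, if_pos rfl, inv_mul_cancel_right]
    · rw [Pi.mulSingle_eq_of_ne hi, if_neg hi, one_mul]
  rw [e1, map_mul, O.X_mulSingle, ZMod.val_zero, pow_zero]
  simp

end Orb

end Pool.Agent.MP_c46de2_gt
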