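import Pool.Agent.MP_c46de2_gt.Cyc

/-!
# The twisted shift on words in `ZMod 3`
-/

set_option autoImplicit false

open Finset Function

namespace Pool.Agent.MP_c46de2_gt

section words
variable {ι : Type*} [Fintype ι] [DecidableEq ι] {G : Type*} [AddCommGroup G]

/-- the words which are nonzero exactly on `S` -/
def words (S : Finset ι) : Finset (ι → ZMod 3) :=
  Fintype.piFinset fun j => if j ∈ S then ({1, 2} : Finset (ZMod 3)) else {0}

theorem mem_words {S : Finset ι} {c : ι → ZMod 3} :
    c ∈ words S ↔ ∀ j, c j ≠ 0 ↔ j ∈ S := by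
  unfold words
  rw [Fintype.mem_piFinset]
  refine forall_congr' fun j => ?_
  have h3 : ∀ x : ZMod 3, (x = 1 ∨ x = 2) ↔ x ≠ 0 := by decide
  by_cases h : j ∈ S
  · rw [if_pos h, Finset.mem_insert, Finset.mem_singleton, h3]
    simp [h]
  · rw [if_neg h, Finset.mem_singleton]
    simp [h]

theorem sum_words (f : (ι → ZMod 3) → G)
    (hf : ∀ c j, f (update c j 0) + f (update c j 1) + f (update c j 2) = 0) (S : Finset ι) :
    ∑ c ∈ words S, f c = (-1 : ℤ) ^ S.card • f 0 := by
  induction S using Finset.induction_on with
  | empty =>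
    have h1 : words (∅ : Finset ι) = {0} := by
      ext c
      rw [mem_words, Finset.mem_singleton]
      constructor
      · intro h
        funext j
        by_contra h2
        exact absurd ((h j).1 h2) (Finset.notMem_empty j)
      · rintro rfl j
        simp
    rw [h1]
    simp
  | insert a S ha ih =>
    have h3 : ∀ x : ZMod 3, x ≠ 0 → x = 1 ∨ x = 2 := by decide
    have h1 : ∑ c ∈ words (insert a S), f c =
        ∑ q ∈ words S ×ˢ ({1, 2} : Finset (ZMod 3)), f (update q.1 a q.2) := by
      refine Finset.sum_nbij' (fun d => (update d a 0, d a)) (fun q => update q.1 a q.2) ?_ ?_ ?_ ?_ ?_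
      · intro d hd
        rw [mem_words] at hd
        rw [Finset.mem_product, mem_words]
        refine ⟨fun j => ?_, ?_⟩
        · dsimp only
          by_cases hj : j = a
          · subst hj
            simp [ha]
          · rw [update_of_ne hj, hd j, Finset.mem_insert]
            simp [hj]
        · have h4 := h3 (d a) ((hd a).2 (Finset.mem_insert_self _ _))
          simpa using h4
      · intro q hq
        rw [Finset.mem_product, mem_words] at hq
        rw [mem_words]
        intro j
        by_cases hj : j = a
        · subst hj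
          have h4 : q.2 = 1 ∨ q.2 = 2 := by simpa using hq.2
          simp only [update_self, Finset.mem_insert_self, iff_true]
          rcases h4 with h4 | h4 <;> rw [h4] <;> decide
        · rw [update_of_ne hj, hq.1 j, Finset.mem_insert]
          simp [hj]
      · intro d _
        simp
      · intro q hq
        rw [Finset.mem_product, mem_words] at hq
        have h4 : q.1 a = 0 := by
          by_contra h5
          exact ha ((hq.1 a).1 h5)
        refine Prod.ext ?_ ?_
        · dsimp only
          rw [update_idem]
          rw [← h4]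
          exact update_eq_self a q.1
        · simp
      · intro d _
        simp
    rw [h1, Finset.sum_product]
    have h2 : ∀ c ∈ words S, ∑ y ∈ ({1, 2} : Finset (ZMod 3)), f (update c a y) = - f c := by
      intro c hc
      rw [mem_words] at hc
      have h4 : c a = 0 := by
        by_contra h5
        exact ha ((hc a).1 h5)
      have h5 := hf c a
      rw [show update c a 0 = c by rw [← h4]; exact update_eq_self a c] at h5
      rw [Finset.sum_pair (by decide)]
      rw [add_assoc] at h5
      exact (neg_eq_of_add_eq_zero_right h5).symm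
    rw [Finset.sum_congr rfl h2, Finset.sum_neg_distrib, ih, Finset.card_insert_of_notMem ha,
      pow_succ]
    rw [mul_neg_one, neg_smul]

end words

/-- the twisted shift -/
def shift (m : ℕ) (η : ZMod 3) (hη : η * η = 1) : Equiv.Perm (ZMod m → ZMod 3) where
  toFun c j := (if j = 0 then η else 1) * c (j - 1)
  invFun c j := (if j + 1 = 0 then η else 1) * c (j + 1)
  left_inv c := by
    funext j
    dsimp only
    rw [add_sub_cancel_right]
    split_ifs
    · rw [← mul_assoc, hη, one_mul]
    · rw [one_mul, one_mul]
  right_inv c := by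
    funext j
    dsimp only
    rw [sub_add_cancel]
    split_ifs
    · rw [← mul_assoc, hη, one_mul]
    · rw [one_mul, one_mul]

theorem shift_apply (m : ℕ) (η : ZMod 3) (hη : η * η = 1) (c : ZMod m → ZMod 3) (j : ZMod m) :
    shift m η hη c j = (if j = 0 then η else 1) * c (j - 1) := rfl

theorem shift_pow_apply (m : ℕ) (η : ZMod 3) (hη : η * η = 1) (n : ℕ) (c : ZMod m → ZMod 3)
    (j : ZMod m) : ((shift m η hη) ^ n) c j =
      (∏ i ∈ range n, (if j - (i : ZMod m) = 0 then η else 1)) * c (j - n) := by
  induction n generalizing j with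
  | zero => simp
  | succ n ih =>
    rw [pow_succ', Equiv.Perm.mul_apply, shift_apply, ih, prod_range_succ']
    have h1 : ∀ i : ℕ, j - 1 - (i : ZMod m) = j - ((i + 1 : ℕ) : ZMod m) := by
      intro i
      push_cast
      ring
    simp only [h1]
    rw [Nat.cast_zero, sub_zero]
    ring

theorem shift_order (m : ℕ) (η : ZMod 3) (hη : η * η = 1) : (shift m η hη) ^ (2 * m) = 1 := by
  ext c j
  rw [shift_pow_apply, two_mul, prod_range_add]
  have h1 : ∀ i : ℕ, j - ((m + i : ℕ) : ZMod m) = j - (i : ZMod m) := by
    intro i
    push_cast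
    simp
  simp only [h1]
  rw [← prod_mul_distrib]
  have h2 : ∀ i ∈ range m, (if j - (i : ZMod m) = 0 then η else 1) *
      (if j - (i : ZMod m) = 0 then η else 1) = 1 := by
    intro i _
    split_ifs
    · exact hη
    · ring
  rw [prod_congr rfl h2]
  simp

theorem shift_fixed (m : ℕ) [NeZero m] (η : ZMod 3) (hη : η * η = 1) (c : ZMod m → ZMod 3)
    (h : shift m η hη c = c) : (∀ j, c j = c 0) ∧ c 0 = η * c 0 := by
  have hm : 0 < m := Nat.pos_of_ne_zero (NeZero.ne m)
  have h1 : ∀ j, c j = (if j = 0 then η else 1) * c (j - 1) := fun j => by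
    conv_lhs => rw [← h]
    rfl
  have h2 : ∀ i : ℕ, i < m → c (i : ZMod m) = c 0 := by
    intro i
    induction i with
    | zero => intro _; simp
    | succ i ih =>
      intro hi
      rw [h1, if_neg, one_mul]
      · push_cast
        rw [add_sub_cancel_right]
        exact ih (by omega)
      · intro h3
        have h4 := (ZMod.natCast_eq_zero_iff (i + 1) m).1 h3
        exact absurd (Nat.le_of_dvd (Nat.succ_pos i) h4) (by omega)
  have h3 : ∀ j, c j = c 0 := by
    intro j
    have h4 := h2 j.val (ZMod.val_lt j)
    rwa [ZMod.natCast_zmod_val] at h4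
  refine ⟨h3, ?_⟩
  have h5 := h1 0
  rw [if_pos rfl, h3 (0 - 1)] at h5
  exact h5

variable {G : Type*} [AddCommGroup G]

/-- the alternating sum over the words without zeros -/
theorem sum_shift (m a : ℕ) (hm : m = 2 ^ a) (η : ZMod 3) (hη : η * η = 1)
    (f : (ZMod m → ZMod 3) → G)
    (hf : ∀ c j, f (update c j 0) + f (update c j 1) + f (update c j 2) = 0)
    (hT : ∀ c, f (shift m η hη c) = - f c) :
    (η ≠ 1 → f 0 = 0) ∧
      (η = 1 → f 0 = (-1 : ℤ) ^ m • (f (fun _ => 1) + f (fun _ => 2))) := by
  classical
  have : NeZero m := ⟨by rw [hm]; positivity⟩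
  have hη0 : η ≠ 0 := by
    intro h
    rw [h, mul_zero] at hη
    exact absurd hη (by decide)
  have hcond : ∀ c : ZMod m → ZMod 3, (∀ j, shift m η hη c j ≠ 0) ↔ ∀ j, c j ≠ 0 := by
    intro c
    have h0 : ∀ e x : ZMod 3, e ≠ 0 → (e * x ≠ 0 ↔ x ≠ 0) := by decide
    have h1 : ∀ x : ZMod 3, (η * x ≠ 0 ↔ x ≠ 0) := fun x => h0 η x hη0
    constructor
    · intro h j
      have h2 := h (j + 1)
      rw [shift_apply, add_sub_cancel_right] at h2
      split_ifs at h2
      · exact (h1 _).1 h2
      · rwa [one_mul] at h2
    · intro h j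
      rw [shift_apply]
      split_ifs
      · exact (h1 _).2 (h _)
      · rw [one_mul]; exact h _
  set F : (ZMod m → ZMod 3) → G := fun c => if ∀ j, c j ≠ 0 then f c else 0 with hFdef
  have hF : ∀ c, F (shift m η hη c) = - F c := by
    intro c
    rw [hFdef]
    dsimp only
    by_cases h : ∀ j, c j ≠ 0
    · rw [if_pos h, if_pos ((hcond c).2 h), hT]
    · rw [if_neg h, if_neg (fun h' => h ((hcond c).1 h')), neg_zero]
  have horder : (shift m η hη) ^ (2 ^ (a + 1)) = 1 := by
    have h1 := shift_order m η hη
    rw [pow_succ, mul_comm (2 ^ a) 2, ← hm]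
    exact h1
  have hsum := sum_eq_sum_fixed (shift m η hη) F hF (a + 1) horder
  have hall : ∑ c, F c = (-1 : ℤ) ^ m • f 0 := by
    have h1 := sum_words f hf (univ : Finset (ZMod m))
    rw [card_univ, ZMod.card] at h1
    rw [← h1, hFdef, ← sum_filter]
    refine sum_congr ?_ fun _ _ => rfl
    ext c
    rw [mem_words, mem_filter]
    simp
  have hunit : ∀ g : G, (-1 : ℤ) ^ m • ((-1 : ℤ) ^ m • g) = g := by
    intro g
    rw [smul_smul, ← mul_pow]
    simp
  constructor
  · intro hη1
    have h1 : ∑ c with shift m η hη c = c, F c = 0 := by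
      refine sum_eq_zero fun c hc => ?_
      obtain ⟨h2, h3⟩ := shift_fixed m η hη c (mem_filter.1 hc).2
      rw [hFdef]
      dsimp only
      rw [if_neg]
      intro h4
      have h5 : ∀ x y : ZMod 3, x * x = 1 → x ≠ 1 → y = x * y → y = 0 := by decide
      exact h4 0 (h5 η (c 0) hη hη1 h3)
    rw [hall, h1] at hsum
    rw [← hunit (f 0), hsum, smul_zero]
  · intro hη1
    have h1 : ∑ c with shift m η hη c = c, F c = f (fun _ => 1) + f (fun _ => 2) := by
      have h2 : (univ.filter fun c : ZMod m → ZMod 3 => shift m η hη c = c) =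
          {(fun _ => 0), (fun _ => 1), (fun _ => 2)} := by
        ext c
        rw [mem_filter]
        simp only [mem_univ, true_and, mem_insert, mem_singleton]
        constructor
        · intro hc
          obtain ⟨h3, -⟩ := shift_fixed m η hη c hc
          have h4 : ∀ x : ZMod 3, x = 0 ∨ x = 1 ∨ x = 2 := by decide
          rcases h4 (c 0) with h5 | h5 | h5
          · left; funext j; rw [h3 j, h5]
          · right; left; funext j; rw [h3 j, h5]
          · right; right; funext j; rw [h3 j, h5]
        · have h4 : ∀ x : ZMod 3, shift m η hη (fun _ => x) = fun _ => x := by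
            intro x
            funext j
            rw [shift_apply, hη1]
            simp
          rintro (h | h | h) <;> rw [h] <;> exact h4 _
      have ne : ∀ x y : ZMod 3, x ≠ y → (fun _ : ZMod m => x) ≠ (fun _ => y) := by
        intro x y hxy h
        exact hxy (congrFun h 0)
      rw [h2, sum_insert, sum_insert, sum_singleton]
      · rw [hFdef]
        dsimp only
        rw [if_neg (by intro h; exact h 0 rfl), if_pos (fun _ => by decide),
          if_pos (fun _ => by decide), zero_add]
      · rw [mem_singleton]
        exact ne 1 2 (by decide)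
      · rw [mem_insert, mem_singleton]
        rintro (h | h)
        · exact ne 0 1 (by decide) h
        · exact ne 0 2 (by decide) h
    rw [hall, h1] at hsum
    rw [← hsum, hunit]

end Pool.Agent.MP_c46de2_gt
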