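import Pool.Agent.MP_c46de2_gt.Defs
import Pool.Agent.MP_c46de2_gt.Shift

/-!
# The four half-edges next to an edge
-/

set_option autoImplicit false

open Equiv
open Function (Injective)

namespace Pool.Agent.MP_c46de2_gt

/-- permutations supported on the image of an embedding -/
noncomputable abbrev J {α β : Type} (ι : α ↪ β) : Perm α →* Perm β := Perm.viaEmbeddingHom ι

section J
variable {α β : Type}

theorem J_apply (ι : α ↪ β) (e : Perm α) (x : α) : J ι e (ι x) = ι (e x) :=
  Perm.viaEmbedding_apply e ι x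

theorem J_apply_of_notMem (ι : α ↪ β) (e : Perm α) (x : β) (hx : x ∉ Set.range ι) :
    J ι e x = x := Perm.viaEmbedding_apply_of_notMem e ι x hx

theorem J_conj (ι : α ↪ β) (e : Perm α) (ψ : Perm β) :
    ψ * J ι e * ψ⁻¹ = J (ι.trans ψ.toEmbedding) e := by
  ext y
  obtain ⟨x, rfl⟩ := ψ.surjective y
  have h0 : (ψ * J ι e * ψ⁻¹) (ψ x) = ψ (J ι e x) := by simp
  rw [h0]
  by_cases hx : x ∈ Set.range ι
  · obtain ⟨a, rfl⟩ := hx
    rw [J_apply]
    exact (J_apply (ι.trans ψ.toEmbedding) e a).symm
  · rw [J_apply_of_notMem ι e x hx, J_apply_of_notMem]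
    rintro ⟨a, ha⟩
    exact hx ⟨a, ψ.injective ha⟩

theorem J_precomp (ι ι' : α ↪ β) (z e : Perm α) (h : ∀ a, ι' a = ι (z a)) :
    J ι' e = J ι (z * e * z⁻¹) := by
  ext y
  by_cases hy : y ∈ Set.range ι
  · obtain ⟨b, rfl⟩ := hy
    obtain ⟨a, rfl⟩ := z.surjective b
    rw [J_apply, ← h, J_apply, h]
    simp
  · rw [J_apply_of_notMem ι _ y hy, J_apply_of_notMem]
    rintro ⟨a, ha⟩
    exact hy ⟨z a, by rw [← h, ha]⟩

theorem J_swap [DecidableEq α] [DecidableEq β] (ι : α ↪ β) (a b : α) :
    J ι (swap a b) = swap (ι a) (ι b) := by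
  ext y
  by_cases hy : y ∈ Set.range ι
  · obtain ⟨x, rfl⟩ := hy
    rw [J_apply]
    by_cases h1 : x = a
    · subst h1; simp
    · by_cases h2 : x = b
      · subst h2; simp
      · rw [swap_apply_of_ne_of_ne h1 h2, swap_apply_of_ne_of_ne (ι.injective.ne h1)
          (ι.injective.ne h2)]
  · rw [J_apply_of_notMem ι _ y hy, swap_apply_of_ne_of_ne]
    · rintro rfl; exact hy ⟨a, rfl⟩
    · rintro rfl; exact hy ⟨b, rfl⟩

end J

variable {V : Type}

/-- the four half-edges next to `h` and `k` -/
def outFun (h k : V × Fin 3) : Fin 4 → V × Fin 3 :=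
  ![next h, next (next h), next k, next (next k)]

theorem next_fst (h : V × Fin 3) : (next h).1 = h.1 := rfl

theorem fst1 {a k : V × Fin 3} (e : a = next k) : a.1 = k.1 := by rw [e, next_fst]

theorem fst2 {a k : V × Fin 3} (e : a = next (next k)) : a.1 = k.1 := by
  rw [e, next_fst, next_fst]

theorem next_ne (h : V × Fin 3) : next h ≠ h := by
  intro e
  have h1 := congrArg Prod.snd e
  have h2 : ∀ i : Fin 3, i + 1 ≠ i := by decide
  exact h2 _ h1

theorem next_next_ne (h : V × Fin 3) : next (next h) ≠ h := by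
  intro e
  have h1 := congrArg Prod.snd e
  have h2 : ∀ i : Fin 3, i + 1 + 1 ≠ i := by decide
  exact h2 _ h1

theorem next3 (h : V × Fin 3) : next (next (next h)) = h := by
  have h2 : ∀ i : Fin 3, i + 1 + 1 + 1 = i := by decide
  exact Prod.ext rfl (h2 _)

theorem cases_next (h a : V × Fin 3) (e : a.1 = h.1) : a = h ∨ a = next h ∨ a = next (next h) := by
  obtain ⟨v, i⟩ := h
  obtain ⟨v', j⟩ := a
  dsimp only at e
  subst e
  have h2 : ∀ i j : Fin 3, j = i ∨ j = i + 1 ∨ j = i + 1 + 1 := by decide
  rcases h2 i j with h3 | h3 | h3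
  · left; rw [h3]
  · right; left; rw [h3]; rfl
  · right; right; rw [h3]; rfl

theorem outFun_injective {h k : V × Fin 3} (hk : h.1 ≠ k.1) : Injective (outFun h k) := by
  have n1 : ∀ a b : V × Fin 3, a.1 = h.1 → b.1 = k.1 → a ≠ b := by
    rintro a b ha hb rfl
    exact hk (ha ▸ hb)
  have e1 : ∀ h : V × Fin 3, next (next h) ≠ next h := fun h => next_ne (next h)
  intro s t hst
  fin_cases s <;> fin_cases t <;> first
    | rfl
    | exact absurd hst (next_ne _)
    | exact absurd hst (Ne.symm (next_ne _))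
    | exact absurd hst (n1 _ _ rfl rfl)
    | exact absurd hst (Ne.symm (n1 _ _ rfl rfl))

/-- the embedding -/
def out (h k : V × Fin 3) (hk : h.1 ≠ k.1) : Fin 4 ↪ V × Fin 3 := ⟨outFun h k, outFun_injective hk⟩

theorem out_zero (h k : V × Fin 3) (hk : h.1 ≠ k.1) : out h k hk 0 = next h := rfl
theorem out_one (h k : V × Fin 3) (hk : h.1 ≠ k.1) : out h k hk 1 = next (next h) := rfl
theorem out_two (h k : V × Fin 3) (hk : h.1 ≠ k.1) : out h k hk 2 = next k := rfl
theorem out_three (h k : V × Fin 3) (hk : h.1 ≠ k.1) : out h k hk 3 = next (next k) := rfl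

theorem out_vertex (h k : V × Fin 3) (hk : h.1 ≠ k.1) (s : Fin 4) :
    (out h k hk s).1 = h.1 ∨ (out h k hk s).1 = k.1 := by
  fin_cases s
  · left; rfl
  · left; rfl
  · right; rfl
  · right; rfl

theorem out_ne_left (h k : V × Fin 3) (hk : h.1 ≠ k.1) (s : Fin 4) : out h k hk s ≠ h := by
  fin_cases s
  · exact next_ne h
  · exact next_next_ne h
  · intro (e : next k = h); exact hk (congrArg Prod.fst e).symm
  · intro (e : next (next k) = h); exact hk (congrArg Prod.fst e).symm

theorem out_ne_right (h k : V × Fin 3) (hk : h.1 ≠ k.1) (s : Fin 4) : out h k hk s ≠ k := by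
  fin_cases s
  · intro (e : next h = k); exact hk (fst1 e.symm).symm
  · intro (e : next (next h) = k); exact hk (fst2 e.symm).symm
  · exact next_ne k
  · exact next_next_ne k

/-- a half-edge at one of the two vertices is `h`, `k` or one of the four -/
theorem out_cases (h k : V × Fin 3) (hk : h.1 ≠ k.1) (a : V × Fin 3)
    (ha : a.1 = h.1 ∨ a.1 = k.1) : a = h ∨ a = k ∨ ∃ s, a = out h k hk s := by
  rcases ha with ha | ha
  · rcases cases_next h a ha with e | e | e
    · exact Or.inl e
    · exact Or.inr (Or.inr ⟨0, e⟩)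
    · exact Or.inr (Or.inr ⟨1, e⟩)
  · rcases cases_next k a ha with e | e | e
    · exact Or.inr (Or.inl e)
    · exact Or.inr (Or.inr ⟨2, e⟩)
    · exact Or.inr (Or.inr ⟨3, e⟩)

/-- the rotation of three legs -/
def r3 : Perm (Fin 4) := swap 1 2 * swap 2 3

theorem rotation_eq [DecidableEq V] (Γ : TriGraph V) (h : V × Fin 3) (hk : h.1 ≠ (Γ.mate h).1) :
    Γ.rotation h = J (out h (Γ.mate h) hk) r3 := by
  unfold r3
  rw [map_mul, J_swap, J_swap]
  rfl

/-! ## Relabellings -/

/-- `π` is a relabelling with sign `s` -/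
def IsRel [Fintype V] (π : Perm (V × Fin 3)) (s : ℤˣ) : Prop :=
  ∃ (β : Perm V) (γ : V → Perm (Fin 3)), π = prodShear β γ ∧ s = ∏ v, Perm.sign (γ v)

section rel
variable [Fintype V]

theorem IsRel.one : IsRel (1 : Perm (V × Fin 3)) 1 := by
  refine ⟨1, fun _ => 1, ?_, by simp⟩
  ext a <;> rfl

theorem IsRel.mul {π π' : Perm (V × Fin 3)} {s s' : ℤˣ} (h : IsRel π s) (h' : IsRel π' s') :
    IsRel (π * π') (s * s') := by
  obtain ⟨β, γ, rfl, rfl⟩ := h
  obtain ⟨β', γ', rfl, rfl⟩ := h'
  refine ⟨β * β', fun v => γ (β' v) * γ' v, ?_, ?_⟩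
  · ext a <;> rfl
  · simp only [map_mul]
    rw [Finset.prod_mul_distrib]
    congr 1
    exact (Equiv.prod_comp β' fun v => Perm.sign (γ v)).symm

theorem IsRel.inv {π : Perm (V × Fin 3)} {s : ℤˣ} (h : IsRel π s) : IsRel π⁻¹ s := by
  obtain ⟨β, γ, rfl, rfl⟩ := h
  refine ⟨β⁻¹, fun v => (γ (β⁻¹ v))⁻¹, ?_, ?_⟩
  · rw [inv_eq_iff_mul_eq_one]
    ext a
    · change β (β⁻¹ a.1) = a.1
      simp
    · change ((γ (β⁻¹ a.1)) ((γ (β⁻¹ a.1))⁻¹ a.2) : Fin 3).val = a.2.val
      simp
  · simp only [Perm.sign_inv]
    exact (Equiv.prod_comp β⁻¹ fun v => Perm.sign (γ v)).symm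

theorem IsRel.pow {π : Perm (V × Fin 3)} {s : ℤˣ} (h : IsRel π s) (n : ℕ) :
    IsRel (π ^ n) (s ^ n) := by
  induction n with
  | zero => simpa using IsRel.one
  | succ n ih =>
    rw [pow_succ, pow_succ]
    exact ih.mul h

theorem IsRel.fst {π : Perm (V × Fin 3)} {s : ℤˣ} (h : IsRel π s) {a b : V × Fin 3}
    (e : a.1 = b.1) : (π a).1 = (π b).1 := by
  obtain ⟨β, γ, rfl, rfl⟩ := h
  change β a.1 = β b.1
  rw [e]

end rel

/-! ## Transformation of weights -/

namespace TriGraph

theorem conj_conj (Γ : TriGraph V) (π π' : Perm (V × Fin 3)) :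
    (Γ.conj π).conj π' = Γ.conj (π' * π) := by
  ext1
  change π' * (π * Γ.mate * π⁻¹) * π'⁻¹ = (π' * π) * Γ.mate * (π' * π)⁻¹
  rw [mul_inv_rev]
  simp only [mul_assoc]

theorem conj_one (Γ : TriGraph V) : Γ.conj 1 = Γ := by
  ext1
  change 1 * Γ.mate * 1⁻¹ = Γ.mate
  simp

theorem conj_eq_self (Γ : TriGraph V) (π : Perm (V × Fin 3)) (h : Commute π Γ.mate) :
    Γ.conj π = Γ := by
  ext1
  change π * Γ.mate * π⁻¹ = Γ.mate
  rw [h.eq, mul_inv_cancel_right]

theorem conj_mate (Γ : TriGraph V) (π : Perm (V × Fin 3)) (a : V × Fin 3) :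
    (Γ.conj π).mate (π a) = π (Γ.mate a) := by
  change (π * Γ.mate * π⁻¹) (π a) = _
  simp

theorem conj_mate_of_fixed (Γ : TriGraph V) (π : Perm (V × Fin 3)) (a : V × Fin 3)
    (h1 : π a = a) (h2 : π (Γ.mate a) = Γ.mate a) : (Γ.conj π).mate a = Γ.mate a := by
  conv_lhs => rw [← h1]
  rw [conj_mate, h2]

end TriGraph

variable [Fintype V] [DecidableEq V] {G : Type} [AddCommGroup G] {w : TriGraph V → G}

theorem IsWeight.rel (hw : IsWeight w) {π : Perm (V × Fin 3)} {s : ℤˣ} (h : IsRel π s)
    (Γ : TriGraph V) : w (Γ.conj π) = (s : ℤ) • w Γ := by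
  obtain ⟨β, γ, rfl, rfl⟩ := h
  exact hw.relabel Γ β γ

/-- the double transposition of the two pairs -/
def vA : Perm (Fin 4) := swap 0 1 * swap 2 3
/-- the exchange of the ends -/
def vB : Perm (Fin 4) := swap 0 2 * swap 1 3

theorem isRel_A (h k : V × Fin 3) (hk : h.1 ≠ k.1) : IsRel (J (out h k hk) vA) 1 := by
  refine ⟨1, fun v => if v = h.1 then swap (h.2 + 1) (h.2 + 1 + 1) else
    if v = k.1 then swap (k.2 + 1) (k.2 + 1 + 1) else 1, ?_, ?_⟩
  · unfold vA
    rw [map_mul, J_swap, J_swap, out_zero, out_one, out_two, out_three]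
    have key : ∀ a, (swap (next h) (next (next h)) * swap (next k) (next (next k))) a =
        (a.1, (if a.1 = h.1 then swap (h.2 + 1) (h.2 + 1 + 1) else
          if a.1 = k.1 then swap (k.2 + 1) (k.2 + 1 + 1) else 1) a.2) := by
      intro a
      rw [Perm.mul_apply]
      by_cases h1 : a.1 = h.1
      · rw [if_pos h1]
        have e1 : swap (next k) (next (next k)) a = a := by
          apply swap_apply_of_ne_of_ne
          · intro (e : a = next k); exact hk (h1.symm.trans (fst1 e))
          · intro (e : a = next (next k)); exact hk (h1.symm.trans (fst2 e))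
        rw [e1]
        rcases cases_next h a h1 with e | e | e
        · rw [e, swap_apply_of_ne_of_ne (next_ne h).symm (next_next_ne h).symm]
          have : ∀ i : Fin 3, Equiv.swap (i + 1) (i + 1 + 1) i = i := by decide
          rw [this]
        · rw [e, swap_apply_left]
          have : ∀ i : Fin 3, Equiv.swap (i + 1) (i + 1 + 1) (i + 1) = i + 1 + 1 := by decide
          refine Prod.ext rfl ?_
          change h.2 + 1 + 1 = _
          exact (this h.2).symm
        · rw [e, swap_apply_right]
          have : ∀ i : Fin 3, Equiv.swap (i + 1) (i + 1 + 1) (i + 1 + 1) = i + 1 := by decide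
          refine Prod.ext rfl ?_
          change h.2 + 1 = _
          exact (this h.2).symm
      · rw [if_neg h1]
        by_cases h2 : a.1 = k.1
        · rw [if_pos h2]
          have e1 : ∀ b : V × Fin 3, b.1 = k.1 → swap (next h) (next (next h)) b = b := by
            intro b hb
            apply swap_apply_of_ne_of_ne
            · intro (e : b = next h)
              exact hk (((congrArg Prod.fst e).symm : h.1 = b.1).trans hb)
            · intro (e : b = next (next h))
              exact hk (((congrArg Prod.fst e).symm : h.1 = b.1).trans hb)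
          rcases cases_next k a h2 with e | e | e
          · rw [e, swap_apply_of_ne_of_ne (next_ne k).symm (next_next_ne k).symm, e1 k rfl]
            have : ∀ i : Fin 3, Equiv.swap (i + 1) (i + 1 + 1) i = i := by decide
            rw [this]
          · rw [e, swap_apply_left, e1 (next (next k)) rfl]
            have : ∀ i : Fin 3, Equiv.swap (i + 1) (i + 1 + 1) (i + 1) = i + 1 + 1 := by decide
            refine Prod.ext rfl ?_
            change k.2 + 1 + 1 = _
            exact (this k.2).symm
          · rw [e, swap_apply_right, e1 (next k) rfl]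
            have : ∀ i : Fin 3, Equiv.swap (i + 1) (i + 1 + 1) (i + 1 + 1) = i + 1 := by decide
            refine Prod.ext rfl ?_
            change k.2 + 1 = _
            exact (this k.2).symm
        · have e1 : Equiv.swap (next k) (next (next k)) a = a := by
            apply swap_apply_of_ne_of_ne
            · intro (e : a = next k); exact h2 (fst1 e)
            · intro (e : a = next (next k)); exact h2 (fst2 e)
          have e2 : Equiv.swap (next h) (next (next h)) a = a := by
            apply swap_apply_of_ne_of_ne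
            · intro (e : a = next h); exact h1 (fst1 e)
            · intro (e : a = next (next h)); exact h1 (fst2 e)
          rw [if_neg h2, e1, e2]
          rfl
    exact Equiv.ext key
  · have hs : ∀ i : Fin 3, Perm.sign (swap (i + 1) (i + 1 + 1)) = -1 := by decide
    have h1 : ∀ v, Perm.sign (if v = h.1 then swap (h.2 + 1) (h.2 + 1 + 1) else
        if v = k.1 then swap (k.2 + 1) (k.2 + 1 + 1) else 1) =
        (if v = h.1 then -1 else 1) * (if v = k.1 then -1 else 1) := by
      intro v
      by_cases e1 : v = h.1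
      · have e2 : v ≠ k.1 := fun e => hk (e1.symm.trans e)
        rw [if_pos e1, if_pos e1, if_neg e2, hs]
        rfl
      · by_cases e2 : v = k.1
        · rw [if_neg e1, if_neg e1, if_pos e2, if_pos e2, hs]
          rfl
        · rw [if_neg e1, if_neg e1, if_neg e2, if_neg e2]
          simp
    rw [Finset.prod_congr rfl fun v _ => h1 v, Finset.prod_mul_distrib,
      Finset.prod_ite_eq' Finset.univ h.1 (fun _ => (-1 : ℤˣ)),
      Finset.prod_ite_eq' Finset.univ k.1 (fun _ => (-1 : ℤˣ))]
    simp

theorem isRel_B (h k : V × Fin 3) (hk : h.1 ≠ k.1) :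
    IsRel (J (out h k hk) vB * swap h k) 1 := by
  refine ⟨swap h.1 k.1, fun v => if v = h.1 then Equiv.addRight (k.2 - h.2) else
    if v = k.1 then Equiv.addRight (h.2 - k.2) else 1, ?_, ?_⟩
  · have hh : ∀ a, a ∉ Set.range (out h k hk) → ∀ e, J (out h k hk) e a = a :=
      fun a ha e => J_apply_of_notMem _ e a ha
    have nh : h ∉ Set.range (out h k hk) := by
      rintro ⟨s, hs⟩; exact out_ne_left h k hk s hs
    have nk : k ∉ Set.range (out h k hk) := by
      rintro ⟨s, hs⟩; exact out_ne_right h k hk s hs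
    have key : ∀ a, (J (out h k hk) vB * swap h k) a = (swap h.1 k.1 a.1,
        (if a.1 = h.1 then Equiv.addRight (k.2 - h.2) else
          if a.1 = k.1 then Equiv.addRight (h.2 - k.2) else (1 : Perm (Fin 3))) a.2) := by
      intro a
      rw [Perm.mul_apply]
      have f1 : ∀ i j : Fin 3, i + (j - i) = j := by decide
      have f2 : ∀ i j : Fin 3, i + 1 + (j - i) = j + 1 := by decide
      have f3 : ∀ i j : Fin 3, i + 1 + 1 + (j - i) = j + 1 + 1 := by decide
      by_cases h1 : a.1 = h.1
      · rw [if_pos h1, h1, swap_apply_left]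
        rcases cases_next h a h1 with e | e | e
        · rw [e, swap_apply_left, hh k nk]
          refine Prod.ext rfl (f1 _ _).symm
        · have e0 : a = out h k hk 0 := e
          rw [e0, swap_apply_of_ne_of_ne (out_ne_left h k hk 0) (out_ne_right h k hk 0), J_apply]
          rw [show vB 0 = 2 by decide, out_two]
          refine Prod.ext rfl (f2 _ _).symm
        · have e0 : a = out h k hk 1 := e
          rw [e0, swap_apply_of_ne_of_ne (out_ne_left h k hk 1) (out_ne_right h k hk 1), J_apply]
          rw [show vB 1 = 3 by decide, out_three]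
          refine Prod.ext rfl (f3 _ _).symm
      · rw [if_neg h1]
        by_cases h2 : a.1 = k.1
        · rw [if_pos h2, h2, swap_apply_right]
          rcases cases_next k a h2 with e | e | e
          · rw [e, swap_apply_right, hh h nh]
            refine Prod.ext rfl (f1 _ _).symm
          · have e0 : a = out h k hk 2 := e
            rw [e0, swap_apply_of_ne_of_ne (out_ne_left h k hk 2) (out_ne_right h k hk 2), J_apply]
            rw [show vB 2 = 0 by decide, out_zero]
            refine Prod.ext rfl (f2 _ _).symm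
          · have e0 : a = out h k hk 3 := e
            rw [e0, swap_apply_of_ne_of_ne (out_ne_left h k hk 3) (out_ne_right h k hk 3), J_apply]
            rw [show vB 3 = 1 by decide, out_one]
            refine Prod.ext rfl (f3 _ _).symm
        · rw [if_neg h2, swap_apply_of_ne_of_ne h1 h2, swap_apply_of_ne_of_ne, hh]
          · rfl
          · rintro ⟨s, hs⟩
            rcases out_vertex h k hk s with e | e
            · exact h1 (hs ▸ e)
            · exact h2 (hs ▸ e)
          · rintro rfl; exact h1 rfl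
          · rintro rfl; exact h2 rfl
    exact Equiv.ext key
  · have hs : ∀ i : Fin 3, Perm.sign (Equiv.addRight i) = 1 := by decide
    rw [Finset.prod_eq_one]
    intro v _
    dsimp only
    split_ifs
    · exact hs _
    · exact hs _
    · exact Perm.sign_one

theorem isRel_C (h k : V × Fin 3) (hk : h.1 ≠ k.1) :
    IsRel (J (out h k hk) (vA * vB) * swap h k) 1 := by
  rw [map_mul, mul_assoc]
  simpa using (isRel_A h k hk).mul (isRel_B h k hk)

/-- the four-group -/
def IsV4 (v : Perm (Fin 4)) : Prop := v = 1 ∨ v = vA ∨ v = vB ∨ v = vA * vB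

instance : DecidablePred IsV4 := fun v => by unfold IsV4; infer_instance

/-- invariance under the four-group -/
theorem IsWeight.v4 (hw : IsWeight w) (Γ : TriGraph V) (h k : V × Fin 3) (hk : h.1 ≠ k.1)
    (e : Γ.mate h = k) (v : Perm (Fin 4)) (hv : IsV4 v) :
    w (Γ.conj (J (out h k hk) v)) = w Γ := by
  have e' : Γ.mate k = h := by rw [← e, Γ.mate_mate]
  have hsw : Γ.conj (swap h k) = Γ := by
    apply TriGraph.conj_eq_self
    ext1 a
    rw [Perm.mul_apply, Perm.mul_apply]
    by_cases h1 : a = h
    · subst h1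
      rw [e, swap_apply_right, swap_apply_left, e']
    · by_cases h2 : a = k
      · subst h2
        rw [e', swap_apply_left, swap_apply_right, e]
      · rw [swap_apply_of_ne_of_ne h1 h2, swap_apply_of_ne_of_ne]
        · intro h3
          apply h2
          rw [← e, ← h3, Γ.mate_mate]
        · intro h3
          apply h1
          rw [← e', ← h3, Γ.mate_mate]
  have hB : w (Γ.conj (J (out h k hk) vB)) = w Γ := by
    have h1 := hw.rel (isRel_B h k hk) Γ
    rw [← TriGraph.conj_conj, hsw] at h1
    simpa using h1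
  rcases hv with rfl | rfl | rfl | rfl
  · rw [map_one, TriGraph.conj_one]
  · have h1 := hw.rel (isRel_A h k hk) Γ
    simpa using h1
  · exact hB
  · have h1 := hw.rel (isRel_C h k hk) Γ
    rw [← TriGraph.conj_conj, hsw] at h1
    simpa using h1

/-- IHX for the embedding -/
theorem IsWeight.ihx' (hw : IsWeight w) (Γ : TriGraph V) (h k : V × Fin 3) (hk : h.1 ≠ k.1)
    (e : Γ.mate h = k) :
    w Γ + w (Γ.conj (J (out h k hk) r3)) + w (Γ.conj (J (out h k hk) r3⁻¹)) = 0 := by
  subst e
  have h1 := hw.ihx Γ h (Ne.symm hk)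
  rw [rotation_eq Γ h hk, ← map_inv] at h1
  exact h1

end Pool.Agent.MP_c46de2_gt
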