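import Pool.Agent.MP_c46de2_gt.Ord

/-!
# Trivalent graphs with an odd automorphism
-/

set_option autoImplicit false
set_option linter.unusedSectionVars false

open Equiv
open Function (Injective update minimalPeriod IsPeriodicPt)

namespace Pool.Agent.MP_c46de2_gt

variable {V : Type} [Fintype V] [DecidableEq V] {G : Type} [AddCommGroup G] {w : TriGraph V → G}

theorem shear_commute {Γ : TriGraph V} {β : Perm V} {γ : V → Perm (Fin 3)}
    (hc : Commute (prodShear β γ) Γ.mate) (n : ℕ) (a : V × Fin 3) :
    Γ.mate (((prodShear β γ : Perm (V × Fin 3)) ^ n) a) =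
      ((prodShear β γ : Perm (V × Fin 3)) ^ n) (Γ.mate a) := by
  have h1 : Commute ((prodShear β γ : Perm (V × Fin 3)) ^ n) Γ.mate := hc.pow_left n
  have h2 := congrArg (fun f : Perm (V × Fin 3) => f a) h1.eq
  exact h2.symm

/-- the data of an odd automorphism of two-power order at a vertex with a nontrivial return map
and minimal period -/
theorem exists_stem (Γ : TriGraph V) (β : Perm V) (γ : V → Perm (Fin 3)) (s : ℕ)
    (hc : Commute (prodShear β γ) Γ.mate) (hodd : ∏ v, Perm.sign (γ v) = -1)
    (hs : (prodShear β γ : Perm (V × Fin 3)) ^ (2 ^ s) = 1) :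
    ∃ (h : V × Fin 3) (L : ℕ), 0 < L ∧ minimalPeriod β h.1 = L ∧
      minimalPeriod β (Γ.mate h).1 = L ∧ h.1 ≠ (Γ.mate h).1 ∧
      ((prodShear β γ : Perm (V × Fin 3)) ^ L) h = h ∧
      ((prodShear β γ : Perm (V × Fin 3)) ^ L) (next h) = next (next h) ∧
      ((prodShear β γ : Perm (V × Fin 3)) ^ L) (next (next h)) = next h := by
  classical
  set π : Perm (V × Fin 3) := prodShear β γ with hπ
  -- the vertices with a nontrivial return map
  set S : Finset V := Finset.univ.filter fun v => ∃ i, (π ^ minimalPeriod β v) (v, i) ≠ (v, i)
    with hS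
  have hne : S.Nonempty := by
    by_contra hemp
    rw [Finset.not_nonempty_iff_eq_empty] at hemp
    have h1 := even_of_trivial β γ (fun a => by
      by_contra h2
      have h3 : a.1 ∈ S := by
        rw [hS, Finset.mem_filter]
        exact ⟨Finset.mem_univ _, a.2, h2⟩
      rw [hemp] at h3
      exact absurd h3 (Finset.notMem_empty _))
    rw [h1] at hodd
    exact absurd hodd (by decide)
  obtain ⟨x, hxS, hmin⟩ := S.exists_min_image (fun v => minimalPeriod β v) hne
  set L := minimalPeriod β x with hL
  have hLpos : 0 < L := period_pos β x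
  obtain ⟨g, hg, -⟩ := shear_pow β γ L x
  have hβL : (β ^ L) x = x := pow_period β x
  have hg' : ∀ i, (π ^ L) (x, i) = (x, g i) := fun i => by
    have h1 := hg i
    rw [hβL] at h1
    exact h1
  have hgpow : ∀ n i, ((π ^ L) ^ n) (x, i) = (x, (g ^ n) i) := by
    intro n
    induction n with
    | zero => intro i; rfl
    | succ n ih => intro i; rw [pow_succ', Perm.mul_apply, ih, hg', pow_succ', Perm.mul_apply]
  have hg2 : g ^ (2 ^ s) = 1 := by
    ext1 i
    have h1 := hgpow (2 ^ s) i
    rw [← pow_mul, mul_comm, pow_mul, hs, one_pow] at h1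
    exact (congrArg Prod.snd h1).symm
  have hg1 : g ≠ 1 := by
    intro h1
    rw [hS, Finset.mem_filter] at hxS
    obtain ⟨-, i, hi⟩ := hxS
    apply hi
    change (π ^ L) (x, i) = (x, i)
    rw [hg', h1]
    rfl
  obtain ⟨i, hi1, hi2, hi3⟩ := reflection_of_ne g s hg2 hg1
  set h : V × Fin 3 := (x, i) with hh
  have f1 : (π ^ L) h = h := by rw [hh, hg', hi1]
  have f2 : (π ^ L) (next h) = next (next h) := by
    change (π ^ L) (x, i + 1) = (x, i + 1 + 1)
    rw [hg', hi2]
  have f3 : (π ^ L) (next (next h)) = next h := by
    change (π ^ L) (x, i + 1 + 1) = (x, i + 1)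
    rw [hg', hi3]
  have fk : (π ^ L) (Γ.mate h) = Γ.mate h := by
    rw [← shear_commute hc, f1]
  have hk : h.1 ≠ (Γ.mate h).1 := by
    intro e
    rcases cases_next h (Γ.mate h) e.symm with e1 | e1 | e1
    · exact Γ.mate_ne h e1
    · rw [e1, f2] at fk
      exact next_ne (next h) fk
    · rw [e1, f3] at fk
      exact next_ne (next h) fk.symm
  have hw : (β ^ L) (Γ.mate h).1 = (Γ.mate h).1 := by
    have h1 := congrArg Prod.fst fk
    rw [hπ, shear_pow_fst] at h1
    exact h1
  have hp : minimalPeriod β (Γ.mate h).1 = L := by
    have hd := dvd_of_pow_eq β hw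
    have hppos := period_pos β (Γ.mate h).1
    rcases (Nat.le_of_dvd hLpos hd).lt_or_eq with h1 | h1
    · exfalso
      have h2 : (Γ.mate h).1 ∉ S := by
        intro h3
        exact absurd (hmin _ h3) (not_le.2 h1)
      have h3 : (π ^ minimalPeriod β (Γ.mate h).1) (Γ.mate h) = Γ.mate h := by
        by_contra h4
        apply h2
        rw [hS, Finset.mem_filter]
        exact ⟨Finset.mem_univ _, (Γ.mate h).2, h4⟩
      rw [← shear_commute hc] at h3
      have h4 := Γ.mate.injective h3
      have h5 := congrArg Prod.fst h4
      rw [shear_pow_fst] at h5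
      have h6 := dvd_of_pow_eq β h5
      exact absurd (Nat.le_of_dvd hppos h6) (not_le.2 h1)
    · exact h1
  exact ⟨h, L, hLpos, rfl, hp, hk, f1, f2, f3⟩

theorem comm_r3 : vA * r3 * vA⁻¹ * r3⁻¹ = vA * vB := by decide +kernel

theorem comm_r3' : vA * r3 ^ 2 * vA⁻¹ * (r3 ^ 2)⁻¹ = vB := by decide +kernel

theorem comm_r3_sq : ∀ t, (vA * r3 * vA⁻¹ * r3⁻¹) ((vA * r3 * vA⁻¹ * r3⁻¹) t) = t := by
  decide +kernel

theorem comm_r3'_sq : ∀ t, (vA * r3 ^ 2 * vA⁻¹ * (r3 ^ 2)⁻¹)
    ((vA * r3 ^ 2 * vA⁻¹ * (r3 ^ 2)⁻¹) t) = t := by
  decide +kernel

/-- The main theorem, for automorphisms of two-power order: induction on the number of pairs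
(the periods of the vertices grow). -/
theorem weight_eq_zero_aux (hw : IsWeight w) (n : ℕ) : ∀ (Γ : TriGraph V) (β : Perm V)
    (γ : V → Perm (Fin 3)) (s : ℕ),
    Fintype.card V * Fintype.card V - ∑ v, minimalPeriod β v = n →
    Commute (prodShear β γ) Γ.mate → ∏ v, Perm.sign (γ v) = -1 →
    (prodShear β γ : Perm (V × Fin 3)) ^ (2 ^ s) = 1 → w Γ = 0 := by
  induction n using Nat.strong_induction_on with
  | _ n ih =>
  intro Γ β γ s hn hc hodd hs
  obtain ⟨h, L, hLpos, ph, pk, hk, f1, f2, f3⟩ := exists_stem Γ β γ s hc hodd hs
  set π : Perm (V × Fin 3) := prodShear β γ with hπ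
  have hrel : IsRel π (-1) := ⟨β, γ, rfl, hodd.symm⟩
  set k := Γ.mate h with hkdef
  have hkm : Γ.mate k = h := Γ.mate_mate h
  have fk : (π ^ L) k = k := by rw [hkdef, ← shear_commute hc, f1]
  have hβ1 : (β ^ (2 ^ s)) h.1 = h.1 := by
    have h1 := shear_pow_fst β γ (2 ^ s) h
    rw [← hπ, hs] at h1
    exact h1.symm
  have hLd : L ∣ 2 ^ s := by rw [← ph]; exact dvd_of_pow_eq β hβ1
  obtain ⟨a, -, ha⟩ := (Nat.dvd_prime_pow Nat.prime_two).1 hLd
  have o0 : out h k hk 0 = next h := rfl
  have o1 : out h k hk 1 = next (next h) := rfl
  have o2 : out h k hk 2 = next k := rfl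
  have o3 : out h k hk 3 = next (next k) := rfl
  have fst_pow : ∀ (i : ℕ) (b : V × Fin 3), ((π ^ i) b).1 = (β ^ i) b.1 := fun i b =>
    shear_pow_fst β γ i b
  by_cases hcase : ∃ i, i < L ∧ (β ^ i) h.1 = k.1
  · -- case (1): the edge is inverted
    obtain ⟨m, hmL, hm⟩ := hcase
    have hmpos : 0 < m := by
      rcases Nat.eq_zero_or_pos m with h1 | h1
      · rw [h1] at hm
        exact absurd hm hk
      · exact h1
    have hmh : (π ^ m) h = k := by
      obtain ⟨b, hb⟩ := (π ^ m).surjective k
      have hb1 : b.1 = h.1 := by
        have h1 := congrArg Prod.fst hb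
        rw [fst_pow, ← hm] at h1
        exact (β ^ m).injective h1
      have hcomm : ∀ c, (π ^ L) ((π ^ m) c) = (π ^ m) ((π ^ L) c) := by
        intro c
        rw [← Perm.mul_apply, ← Perm.mul_apply, ← pow_add, ← pow_add, add_comm]
      rcases cases_next h b hb1 with e | e | e
      · rw [← hb, e]
      · rw [← hb, hcomm, e, f2] at fk
        exact absurd ((π ^ m).injective fk) (next_ne _)
      · rw [← hb, hcomm, e, f3] at fk
        exact absurd ((π ^ m).injective fk).symm (next_ne _)
    have hmk : (π ^ m) k = h := by
      rw [hkdef, ← shear_commute hc]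
      change Γ.mate ((π ^ m) h) = h
      rw [hmh, hkm]
    have h2m : L = 2 * m := by
      have h1 : (β ^ (2 * m)) h.1 = h.1 := by
        rw [two_mul, pow_add, Perm.mul_apply, hm]
        have h2 := congrArg Prod.fst hmk
        rw [fst_pow] at h2
        exact h2
      have h2 := dvd_of_pow_eq β h1
      rw [ph] at h2
      obtain ⟨c, hcc⟩ := h2
      have : c < 2 := by
        by_contra hc2
        have : L * 2 ≤ L * c := Nat.mul_le_mul_left L (by omega)
        omega
      have : c ≠ 0 := by
        rintro rfl
        omega
      have : c = 1 := by omega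
      rw [this] at hcc
      omega
    have hψψ : ∀ c, (π ^ m) ((π ^ m) c) = (π ^ L) c := by
      intro c
      rw [h2m, two_mul, pow_add, Perm.mul_apply]
    -- the images of the four half-edges
    have hnh : ((π ^ m) (next h)).1 = k.1 := by rw [fst_pow]; exact hm
    obtain ⟨z, hz, hzs⟩ : ∃ z : Perm (Fin 4), (∀ t, (π ^ m) (out h k hk t) = out h k hk (z t)) ∧
        Perm.sign z ≠ 1 := by
      rcases cases_next k _ hnh with e | e | e
      · rw [← hmh] at e
        exact absurd ((π ^ m).injective e) (next_ne h)
      · -- `next h ↦ next k`
        have e2 : (π ^ m) (next k) = next (next h) := by rw [← e, hψψ, f2]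
        have e3 : (π ^ m) (next (next h)) = next (next k) := by
          have h3 : ((π ^ m) (next (next h))).1 = k.1 := by rw [fst_pow]; exact hm
          rcases cases_next k _ h3 with e4 | e4 | e4
          · rw [← hmh] at e4
            exact absurd ((π ^ m).injective e4) (next_next_ne h)
          · rw [← e] at e4
            exact absurd ((π ^ m).injective e4) (next_ne _)
          · exact e4
        have e4 : (π ^ m) (next (next k)) = next h := by rw [← e3, hψψ, f3]
        refine ⟨swap 0 2 * swap 2 1 * swap 1 3, fun t => ?_, by decide⟩
        fin_cases t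
        · exact e
        · exact e3
        · exact e2
        · exact e4
      · -- `next h ↦ next (next k)`
        have e2 : (π ^ m) (next (next k)) = next (next h) := by rw [← e, hψψ, f2]
        have e3 : (π ^ m) (next (next h)) = next k := by
          have h3 : ((π ^ m) (next (next h))).1 = k.1 := by rw [fst_pow]; exact hm
          rcases cases_next k _ h3 with e4 | e4 | e4
          · rw [← hmh] at e4
            exact absurd ((π ^ m).injective e4) (next_next_ne h)
          · exact e4
          · rw [← e] at e4
            exact absurd ((π ^ m).injective e4) (next_ne _)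
        have e4 : (π ^ m) (next k) = next h := by rw [← e3, hψψ, f3]
        refine ⟨swap 0 3 * swap 3 1 * swap 1 2, fun t => ?_, by decide⟩
        fin_cases t
        · exact e
        · exact e3
        · exact e4
        · exact e2
    have O : Orb Γ π h k m z hk :=
      { mate := rfl
        comm := hc
        rel := hrel
        pos := hmpos
        d1 := by
          intro i j hi hj e
          rw [fst_pow, fst_pow] at e
          exact inj_of_lt_period β (by omega) (by omega) e
        d2 := by
          intro i j hi hj e
          rw [fst_pow, fst_pow] at e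
          exact inj_of_lt_period β (by omega) (by omega) e
        d3 := by
          intro i j hi hj e
          rw [fst_pow, fst_pow, ← hm, ← Perm.mul_apply, ← pow_add] at e
          have h1 := inj_of_lt_period β (by omega) (by omega) e
          omega
        act := hz }
    have hma : m = 2 ^ (a - 1) := by
      rcases Nat.eq_zero_or_pos a with h1 | h1
      · rw [h1, pow_zero] at ha
        omega
      · obtain ⟨b, rfl⟩ : ∃ b, a = b + 1 := ⟨a - 1, by omega⟩
        rw [pow_succ] at ha
        rw [Nat.add_sub_cancel]
        omega
    exact (O.main hw (a - 1) hma).1 hzs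
  · -- the two vertices are in different orbits
    have hne : ∀ i, (β ^ i) h.1 ≠ k.1 := by
      intro i e
      apply hcase
      refine ⟨i % L, Nat.mod_lt _ hLpos, ?_⟩
      have h3 : (β ^ L) h.1 = h.1 := by have := pow_period β h.1; rwa [ph] at this
      rw [← Nat.mod_add_div i L, pow_add, Perm.mul_apply,
        pow_eq_of_dvd β h3 (Dvd.intro (i / L) rfl)] at e
      exact e
    have hne' : ∀ i, (β ^ i) k.1 ≠ h.1 := by
      intro i e
      have h3 : (β ^ L) h.1 = h.1 := by have := pow_period β h.1; rwa [ph] at this
      have h4 : (β ^ L) k.1 = k.1 := by have := pow_period β k.1; rwa [pk] at this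
      have h1 : (β ^ (L * i)) k.1 = k.1 := pow_eq_of_dvd β h4 (Dvd.intro i rfl)
      apply hne (L * i - i)
      have h2 : i ≤ L * i := Nat.le_mul_of_pos_left i hLpos
      rw [← e, ← Perm.mul_apply, ← pow_add, Nat.sub_add_cancel h2, h1]
    have mkO : ∀ z : Perm (Fin 4), (∀ t, (π ^ L) (out h k hk t) = out h k hk (z t)) →
        Orb Γ π h k L z hk := by
      intro z hz
      exact
        { mate := rfl
          comm := hc
          rel := hrel
          pos := hLpos
          d1 := by
            intro i j hi hj e
            rw [fst_pow, fst_pow] at e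
            exact inj_of_lt_period β (by omega) (by omega) e
          d2 := by
            intro i j hi hj e
            rw [fst_pow, fst_pow] at e
            exact inj_of_lt_period β (by omega) (by omega) e
          d3 := by
            intro i j hi hj e
            rw [fst_pow, fst_pow] at e
            rcases le_total i j with hij | hij
            · obtain ⟨c, rfl⟩ := Nat.exists_eq_add_of_le hij
              rw [pow_add, Perm.mul_apply] at e
              exact hne' c ((β ^ i).injective e).symm
            · obtain ⟨c, rfl⟩ := Nat.exists_eq_add_of_le hij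
              rw [pow_add, Perm.mul_apply] at e
              exact hne c ((β ^ j).injective e)
          act := hz }
    have hnk : ((π ^ L) (next k)).1 = k.1 := by
      rw [fst_pow]
      have := pow_period β k.1
      rwa [pk] at this
    have hnnk : ((π ^ L) (next (next k))).1 = k.1 := by
      rw [fst_pow]
      have := pow_period β k.1
      rwa [pk] at this
    rcases cases_next k _ hnk with e | e | e
    · exfalso
      rw [← fk] at e
      have e' := (π ^ L).injective e
      rw [fk] at e'
      exact next_ne k e'
    · -- the return map is trivial at the other vertex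
      have e3 : (π ^ L) (next (next k)) = next (next k) := by
        rcases cases_next k _ hnnk with e4 | e4 | e4
        · exfalso
          rw [← fk] at e4
          have e' := (π ^ L).injective e4
          rw [fk] at e'
          exact next_next_ne k e'
        · rw [← e] at e4
          have e' := (π ^ L).injective e4
          rw [e] at e'
          exact absurd e' (next_ne _)
        · exact e4
      have O := mkO (swap 0 1) (fun t => by
        fin_cases t
        · exact f2
        · exact f3
        · exact e
        · exact e3)
      exact (O.main hw a ha).1 (by decide)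
    · -- the return map is a reflection at the other vertex
      have e3 : (π ^ L) (next (next k)) = next k := by
        rcases cases_next k _ hnnk with e4 | e4 | e4
        · exfalso
          rw [← fk] at e4
          have e' := (π ^ L).injective e4
          rw [fk] at e'
          exact next_next_ne k e'
        · exact e4
        · rw [← e] at e4
          have e' := (π ^ L).injective e4
          rw [e] at e'
          exact absurd e' (next_ne _)
      have hact : ∀ t, (π ^ L) (out h k hk t) = out h k hk (vA t) := fun t => by
        have f : vA 0 = 1 ∧ vA 1 = 0 ∧ vA 2 = 3 ∧ vA 3 = 2 := by decide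
        obtain ⟨g0, g1, g2, g3⟩ := f
        fin_cases t
        · change (π ^ L) (out h k hk 0) = out h k hk (vA 0)
          rw [g0]; exact f2
        · change (π ^ L) (out h k hk 1) = out h k hk (vA 1)
          rw [g1]; exact f3
        · change (π ^ L) (out h k hk 2) = out h k hk (vA 2)
          rw [g2]; exact e
        · change (π ^ L) (out h k hk 3) = out h k hk (vA 3)
          rw [g3]; exact e3
      have O := mkO vA hact
      have S : Step β γ h k hk L :=
        { pos := hLpos
          ph := ph
          pk := pk
          ne := hne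
          fh := f1
          fk := fk
          act := hact }
      -- the new graphs
      have hnew : ∀ ρ : Perm (Fin 4), IsEx (vA * ρ * vA⁻¹ * ρ⁻¹) →
          (∀ t, (vA * ρ * vA⁻¹ * ρ⁻¹) ((vA * ρ * vA⁻¹ * ρ⁻¹) t) = t) →
          w (Γ.conj (O.X fun _ => ρ)) = 0 := by
        intro ρ hv hvv
        set v := vA * ρ * vA⁻¹ * ρ⁻¹ with hvdef
        set Γ1 := Γ.conj (O.X fun _ => ρ) with hΓ1
        have h1 : Γ1.conj π = Γ1.conj (J (out h k hk) v) := O.conj_const ρ
        have hmate : Γ1.mate h = k := by
          have := O.conj_X_mate (fun _ => ρ) 0 hLpos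
          simpa using this
        have hmate' : Γ1.mate k = h := by rw [← hmate, Γ1.mate_mate]
        have hsw : Γ1.conj (swap h k) = Γ1 := by
          apply TriGraph.conj_eq_self
          ext1 b
          rw [Perm.mul_apply, Perm.mul_apply]
          by_cases h2 : b = h
          · subst h2
            rw [hmate, swap_apply_right, swap_apply_left, hmate']
          · by_cases h3 : b = k
            · rw [h3, hmate', swap_apply_left, swap_apply_right, hmate]
            · rw [swap_apply_of_ne_of_ne h2 h3, swap_apply_of_ne_of_ne]
              · intro h4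
                apply h3
                rw [← hmate, ← h4, Γ1.mate_mate]
              · intro h4
                apply h2
                rw [← hmate', ← h4, Γ1.mate_mate]
        have hJJ : J (out h k hk) v * J (out h k hk) v = 1 := by
          rw [← map_mul]
          have : v * v = 1 := by
            ext1 t
            exact hvv t
          rw [this, map_one]
        have hcomm2 : J (out h k hk) v * swap h k = swap h k * J (out h k hk) v := by
          ext1 b
          rw [Perm.mul_apply, Perm.mul_apply]
          by_cases hb : b ∈ Set.range (out h k hk)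
          · obtain ⟨t, rfl⟩ := hb
            rw [swap_apply_of_ne_of_ne (out_ne_left h k hk t) (out_ne_right h k hk t), J_apply,
              swap_apply_of_ne_of_ne (out_ne_left h k hk _) (out_ne_right h k hk _)]
          · rw [J_apply_of_notMem _ _ b hb, J_apply_of_notMem]
            by_cases h2 : b = h
            · rw [h2, swap_apply_left]
              rintro ⟨t, ht⟩
              exact out_ne_right h k hk t ht
            · by_cases h3 : b = k
              · rw [h3, swap_apply_right]
                rintro ⟨t, ht⟩
                exact out_ne_left h k hk t ht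
              · rw [swap_apply_of_ne_of_ne h2 h3]
                exact hb
        have hinv : Γ1.conj (hat h k hk v * π) = Γ1 := by
          rw [← TriGraph.conj_conj, h1, TriGraph.conj_conj]
          have : hat h k hk v * J (out h k hk) v = swap h k := by
            unfold hat
            rw [hcomm2, mul_assoc, hJJ, mul_one]
          rw [this, hsw]
        have hcomm3 : Commute (hat h k hk v * π) Γ1.mate := by
          have h2 := congrArg TriGraph.mate hinv
          change hat h k hk v * π * Γ1.mate * (hat h k hk v * π)⁻¹ = Γ1.mate at h2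
          unfold Commute SemiconjBy
          conv_rhs => rw [← h2]
          rw [inv_mul_cancel_right]
        obtain ⟨β1, γ1, e1, e2⟩ := (hat_isRel hk hv).mul hrel
        have hβ : β1 = swap h.1 k.1 * β := by
          ext1 b
          have h2 := congrArg (fun f : Perm (V × Fin 3) => (f (b, 0)).1) e1
          change (hat h k hk v (π (b, 0))).1 = β1 b at h2
          rw [← h2, hat_fst hk hv]
          rfl
        have hsum : ∑ b, minimalPeriod β b < ∑ b, minimalPeriod β1 b := by
          rw [hβ]
          exact S.sum_period_lt hv
        have hle : ∑ b, minimalPeriod β1 b ≤ Fintype.card V * Fintype.card V := by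
          calc ∑ b, minimalPeriod β1 b ≤ ∑ _b : V, Fintype.card V :=
                Finset.sum_le_sum fun b _ => Function.minimalPeriod_le_card
            _ = _ := by rw [Finset.sum_const, smul_eq_mul, Finset.card_univ]
        refine ih (Fintype.card V * Fintype.card V - ∑ b, minimalPeriod β1 b) (by omega) Γ1 β1 γ1
          (s + 1) rfl ?_ ?_ ?_
        · rw [← e1]
          exact hcomm3
        · rw [← e2]
          rfl
        · rw [← e1]
          exact S.hat_order hv s hs
      have key := (O.main hw a ha).2 (by decide)
      rw [key, hnew r3 (Or.inr comm_r3) comm_r3_sq, hnew (r3 ^ 2) (Or.inl comm_r3') comm_r3'_sq]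
      simp

/-- **Theorem.** A function with AS and IHX vanishes on every trivalent graph with an odd
automorphism. -/
theorem weight_eq_zero (hw : IsWeight w) (Γ : TriGraph V) (hΓ : HasOddAut Γ) : w Γ = 0 := by
  obtain ⟨β, γ, hc, hodd⟩ := hΓ
  set π : Perm (V × Fin 3) := prodShear β γ with hπ
  have hcomm : Commute π Γ.mate := by
    ext1 a
    exact (hc a).symm
  -- the odd part of the order
  obtain ⟨s, q, hq, hsq⟩ := Nat.exists_eq_two_pow_mul_odd (n := orderOf π) (orderOf_pos π).ne'
  have hrel : IsRel (π ^ q) ((-1) ^ q) := (IsRel.pow ⟨β, γ, rfl, hodd.symm⟩ q)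
  rw [hq.neg_one_pow] at hrel
  obtain ⟨β1, γ1, e1, e2⟩ := hrel
  refine weight_eq_zero_aux hw _ Γ β1 γ1 s rfl ?_ e2.symm ?_
  · rw [← e1]
    exact hcomm.pow_left q
  · rw [← e1, ← pow_mul, mul_comm, ← hsq]
    exact pow_orderOf_eq_one π

end Pool.Agent.MP_c46de2_gt
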