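import Pool.Agent.MP_c46de2_gt.Key

/-!
# Iterates of relabellings
-/

set_option autoImplicit false
set_option linter.unusedSectionVars false

open Equiv
open Function (Injective update minimalPeriod IsPeriodicPt)

namespace Pool.Agent.MP_c46de2_gt

section periods
variable {X : Type}

theorem isPeriodic_iff (β : Perm X) (n : ℕ) (x : X) : IsPeriodicPt β n x ↔ (β ^ n) x = x := by
  unfold Function.IsPeriodicPt Function.IsFixedPt
  rw [Perm.iterate_eq_pow]

theorem dvd_of_pow_eq (β : Perm X) {n : ℕ} {x : X} (h : (β ^ n) x = x) : minimalPeriod β x ∣ n :=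
  ((isPeriodic_iff β n x).2 h).minimalPeriod_dvd

theorem pow_period (β : Perm X) (x : X) : (β ^ minimalPeriod β x) x = x :=
  (isPeriodic_iff β _ x).1 (Function.isPeriodicPt_minimalPeriod β x)

theorem period_pos [Finite X] (β : Perm X) (x : X) : 0 < minimalPeriod β x := by
  apply Function.minimalPeriod_pos_of_mem_periodicPts
  refine ⟨orderOf β, orderOf_pos β, ?_⟩
  rw [isPeriodic_iff, pow_orderOf_eq_one]
  rfl

theorem pow_eq_of_dvd (β : Perm X) {n p : ℕ} {x : X} (h : (β ^ p) x = x) (hd : p ∣ n) :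
    (β ^ n) x = x := by
  obtain ⟨c, rfl⟩ := hd
  rw [pow_mul]
  induction c with
  | zero => simp
  | succ c ih => rw [pow_succ, Perm.mul_apply, h, ih]

theorem inj_of_lt_period (β : Perm X) {i j : ℕ} {x : X} (hi : i < minimalPeriod β x)
    (hj : j < minimalPeriod β x) (h : (β ^ i) x = (β ^ j) x) : i = j := by
  have key : ∀ i j : ℕ, i ≤ j → j < minimalPeriod β x → (β ^ i) x = (β ^ j) x → i = j := by
    intro i j hij hj h
    obtain ⟨c, rfl⟩ := Nat.exists_eq_add_of_le hij
    rw [pow_add, Perm.mul_apply] at h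
    have h1 := dvd_of_pow_eq β ((β ^ i).injective h).symm
    rcases Nat.eq_zero_or_pos c with h2 | h2
    · omega
    · exact absurd (Nat.le_of_dvd h2 h1) (by omega)
  rcases le_total i j with hij | hij
  · exact key i j hij hj h
  · exact (key j i hij hi h.symm).symm

theorem period_pow [Finite X] (β : Perm X) (i : ℕ) (x : X) :
    minimalPeriod β ((β ^ i) x) = minimalPeriod β x := by
  have h1 := Function.minimalPeriod_apply_iterate (f := β) (x := x)
    ⟨_, period_pos β x, Function.isPeriodicPt_minimalPeriod β x⟩ i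
  rwa [Perm.iterate_eq_pow] at h1

end periods

variable {V : Type} [Fintype V] [DecidableEq V]

theorem shear_apply (β : Perm V) (γ : V → Perm (Fin 3)) (a : V × Fin 3) :
    prodShear β γ a = (β a.1, γ a.1 a.2) := rfl

theorem shear_pow (β : Perm V) (γ : V → Perm (Fin 3)) (n : ℕ) (v : V) :
    ∃ g : Perm (Fin 3), (∀ i, ((prodShear β γ : Perm (V × Fin 3)) ^ n) (v, i) = ((β ^ n) v, g i)) ∧
      Perm.sign g = ∏ j ∈ Finset.range n, Perm.sign (γ ((β ^ j) v)) := by
  induction n with
  | zero => exact ⟨1, fun i => rfl, by simp⟩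
  | succ n ih =>
    obtain ⟨g, h1, h2⟩ := ih
    refine ⟨γ ((β ^ n) v) * g, fun i => ?_, ?_⟩
    · rw [pow_succ', Perm.mul_apply, h1, shear_apply, pow_succ', Perm.mul_apply]
      rfl
    · rw [map_mul, h2, Finset.prod_range_succ, mul_comm]

theorem shear_pow_fst (β : Perm V) (γ : V → Perm (Fin 3)) (n : ℕ) (a : V × Fin 3) :
    (((prodShear β γ : Perm (V × Fin 3)) ^ n) a).1 = (β ^ n) a.1 := by
  obtain ⟨g, h1, -⟩ := shear_pow β γ n a.1
  rw [show a = (a.1, a.2) from rfl, h1]

/-- If all the return maps are trivial, the relabelling is even. -/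
theorem even_of_trivial (β : Perm V) (γ : V → Perm (Fin 3))
    (h : ∀ a, ((prodShear β γ : Perm (V × Fin 3)) ^ minimalPeriod β a.1) a = a) :
    ∏ v, Perm.sign (γ v) = 1 := by
  refine prod_eq_one_of_cocycle β (fun v => Perm.sign (γ v)) fun v n hn => ?_
  obtain ⟨g, h1, h2⟩ := shear_pow β γ n v
  rw [← h2]
  have h3 : g = 1 := by
    ext1 i
    have h4 := pow_eq_of_dvd _ (h (v, i)) (dvd_of_pow_eq β hn)
    rw [h1] at h4
    exact congrArg Prod.snd h4
  rw [h3, map_one]

/-- a return map of two-power order which is not trivial is a reflection -/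
theorem reflection_of_ne (g : Perm (Fin 3)) (s : ℕ) (hs : g ^ (2 ^ s) = 1) (hg : g ≠ 1) :
    ∃ i, g i = i ∧ g (i + 1) = i + 1 + 1 ∧ g (i + 1 + 1) = i + 1 := by
  have h1 : ∀ g : Perm (Fin 3), g ^ 2 = 1 ∨ g ^ 3 = 1 := by decide
  have h2 : ∀ g : Perm (Fin 3), g ≠ 1 → g ^ 2 = 1 →
      ∃ i, g i = i ∧ g (i + 1) = i + 1 + 1 ∧ g (i + 1 + 1) = i + 1 := by decide
  rcases h1 g with h3 | h3
  · exact h2 g hg h3
  · exfalso
    have h4 := Nat.dvd_gcd (orderOf_dvd_of_pow_eq_one h3) (orderOf_dvd_of_pow_eq_one hs)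
    have h5 : Nat.gcd 3 (2 ^ s) = 1 := Nat.Coprime.pow_right s (by decide)
    rw [h5, Nat.dvd_one] at h4
    exact hg (orderOf_eq_one_iff.1 h4)

/-! ## The new automorphism -/

section hat
variable {h k : V × Fin 3} (hk : h.1 ≠ k.1)

/-- the exchange elements -/
def IsEx (v : Perm (Fin 4)) : Prop := v = vB ∨ v = vA * vB

/-- the lift of an exchange element -/
noncomputable def hat (h k : V × Fin 3) (hk : h.1 ≠ k.1) (v : Perm (Fin 4)) :
    Perm (V × Fin 3) := J (out h k hk) v * swap h k

theorem hat_left (v : Perm (Fin 4)) : hat h k hk v h = k := by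
  unfold hat
  rw [Perm.mul_apply, swap_apply_left]
  apply J_apply_of_notMem
  rintro ⟨s, hs⟩
  exact out_ne_right h k hk s hs

theorem hat_right (v : Perm (Fin 4)) : hat h k hk v k = h := by
  unfold hat
  rw [Perm.mul_apply, swap_apply_right]
  apply J_apply_of_notMem
  rintro ⟨s, hs⟩
  exact out_ne_left h k hk s hs

theorem hat_out (v : Perm (Fin 4)) (s : Fin 4) :
    hat h k hk v (out h k hk s) = out h k hk (v s) := by
  unfold hat
  rw [Perm.mul_apply, swap_apply_of_ne_of_ne (out_ne_left h k hk s) (out_ne_right h k hk s),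
    J_apply]

theorem hat_other (v : Perm (Fin 4)) (a : V × Fin 3) (h1 : a.1 ≠ h.1) (h2 : a.1 ≠ k.1) :
    hat h k hk v a = a := by
  unfold hat
  rw [Perm.mul_apply, swap_apply_of_ne_of_ne]
  · apply J_apply_of_notMem
    rintro ⟨s, hs⟩
    rcases out_vertex h k hk s with e | e
    · exact h1 (hs ▸ e)
    · exact h2 (hs ▸ e)
  · rintro rfl; exact h1 rfl
  · rintro rfl; exact h2 rfl

theorem hat_isRel {v : Perm (Fin 4)} (hv : IsEx v) : IsRel (hat h k hk v) 1 := by
  rcases hv with rfl | rfl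
  · exact isRel_B h k hk
  · exact isRel_C h k hk

theorem out_exchange {v : Perm (Fin 4)} (hv : IsEx v) (s : Fin 4) :
    (out h k hk (v s)).1 = swap h.1 k.1 (out h k hk s).1 := by
  have e0 : (out h k hk 0).1 = h.1 := rfl
  have e1 : (out h k hk 1).1 = h.1 := rfl
  have e2 : (out h k hk 2).1 = k.1 := rfl
  have e3 : (out h k hk 3).1 = k.1 := rfl
  rcases hv with rfl | rfl
  · have f : vB 0 = 2 ∧ vB 1 = 3 ∧ vB 2 = 0 ∧ vB 3 = 1 := by decide
    obtain ⟨f0, f1, f2, f3⟩ := f
    fin_cases s
    · change (out h k hk (vB 0)).1 = swap h.1 k.1 (out h k hk 0).1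
      rw [f0, e0, e2, swap_apply_left]
    · change (out h k hk (vB 1)).1 = swap h.1 k.1 (out h k hk 1).1
      rw [f1, e1, e3, swap_apply_left]
    · change (out h k hk (vB 2)).1 = swap h.1 k.1 (out h k hk 2).1
      rw [f2, e0, e2, swap_apply_right]
    · change (out h k hk (vB 3)).1 = swap h.1 k.1 (out h k hk 3).1
      rw [f3, e1, e3, swap_apply_right]
  · have f : (vA * vB) 0 = 3 ∧ (vA * vB) 1 = 2 ∧ (vA * vB) 2 = 1 ∧ (vA * vB) 3 = 0 := by decide
    obtain ⟨f0, f1, f2, f3⟩ := f
    fin_cases s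
    · change (out h k hk ((vA * vB) 0)).1 = swap h.1 k.1 (out h k hk 0).1
      rw [f0, e0, e3, swap_apply_left]
    · change (out h k hk ((vA * vB) 1)).1 = swap h.1 k.1 (out h k hk 1).1
      rw [f1, e1, e2, swap_apply_left]
    · change (out h k hk ((vA * vB) 2)).1 = swap h.1 k.1 (out h k hk 2).1
      rw [f2, e1, e2, swap_apply_right]
    · change (out h k hk ((vA * vB) 3)).1 = swap h.1 k.1 (out h k hk 3).1
      rw [f3, e0, e3, swap_apply_right]

theorem hat_fst {v : Perm (Fin 4)} (hv : IsEx v) (a : V × Fin 3) :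
    (hat h k hk v a).1 = swap h.1 k.1 a.1 := by
  by_cases h1 : a.1 = h.1 ∨ a.1 = k.1
  · rcases out_cases h k hk a h1 with e | e | ⟨s, e⟩
    · rw [e, hat_left, swap_apply_left]
    · rw [e, hat_right, swap_apply_right]
    · rw [e, hat_out, out_exchange hk hv]
  · push Not at h1
    rw [hat_other hk v a h1.1 h1.2, swap_apply_of_ne_of_ne h1.1 h1.2]

end hat

/-- The situation of the reduction step: the return map of order `L` at the two vertices. -/
structure Step (β : Perm V) (γ : V → Perm (Fin 3)) (h k : V × Fin 3) (hk : h.1 ≠ k.1) (L : ℕ) :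
    Prop where
  pos : 0 < L
  ph : minimalPeriod β h.1 = L
  pk : minimalPeriod β k.1 = L
  ne : ∀ i, (β ^ i) h.1 ≠ k.1
  fh : ((prodShear β γ : Perm (V × Fin 3)) ^ L) h = h
  fk : ((prodShear β γ : Perm (V × Fin 3)) ^ L) k = k
  act : ∀ s, ((prodShear β γ : Perm (V × Fin 3)) ^ L) (out h k hk s) = out h k hk (vA s)

namespace Step
variable {β : Perm V} {γ : V → Perm (Fin 3)} {h k : V × Fin 3} {hk : h.1 ≠ k.1} {L : ℕ}

theorem ne' (S : Step β γ h k hk L) (i : ℕ) : (β ^ i) k.1 ≠ h.1 := by
  intro e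
  -- choose `c` with `i + c` a multiple of the period
  have h1 : (β ^ (L * i)) h.1 = h.1 :=
    pow_eq_of_dvd β (p := L) (by have := pow_period β h.1; rwa [S.ph] at this) (Dvd.intro i rfl)
  have h2 : (β ^ (L * i)) k.1 = k.1 :=
    pow_eq_of_dvd β (p := L) (by have := pow_period β k.1; rwa [S.pk] at this) (Dvd.intro i rfl)
  have h3 : L * i = (L * i - i) + i := by
    have : i ≤ L * i := Nat.le_mul_of_pos_left i S.pos
    omega
  apply S.ne (L * i - i)
  rw [← e, ← Perm.mul_apply, ← pow_add, ← h3, h2]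

/-- the vertices of the two orbits -/
def Near (β : Perm V) (h k : V × Fin 3) (v : V) : Prop :=
  ∃ i : ℕ, (β ^ i) h.1 = v ∨ (β ^ i) k.1 = v

variable (S : Step β γ h k hk L) {v : Perm (Fin 4)} (hv : IsEx v)
include S hv

/-- the new permutation of the vertices -/
theorem new_pow_of_lt (b : V) (hb : b = h.1 ∨ b = k.1) (n : ℕ) (hn : n < L) :
    ((swap h.1 k.1 * β) ^ n) b = (β ^ n) b := by
  induction n with
  | zero => rfl
  | succ n ih =>
    rw [pow_succ', Perm.mul_apply, ih (by omega), Perm.mul_apply, ← Perm.mul_apply β, ← pow_succ',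
      swap_apply_of_ne_of_ne]
    · rcases hb with rfl | rfl
      · intro e
        have h1 := dvd_of_pow_eq β e
        rw [S.ph] at h1
        exact absurd (Nat.le_of_dvd (Nat.succ_pos n) h1) (by omega)
      · exact S.ne' (n + 1)
    · rcases hb with rfl | rfl
      · exact S.ne (n + 1)
      · intro e
        have h1 := dvd_of_pow_eq β e
        rw [S.pk] at h1
        exact absurd (Nat.le_of_dvd (Nat.succ_pos n) h1) (by omega)

theorem new_pow_L (b : V) (hb : b = h.1 ∨ b = k.1) :
    ((swap h.1 k.1 * β) ^ L) b = swap h.1 k.1 b := by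
  have h1 : L = (L - 1) + 1 := by have := S.pos; omega
  have h2 := S.new_pow_of_lt hv b hb (L - 1) (by have := S.pos; omega)
  have h3 : (β ^ L) b = b := by
    rcases hb with rfl | rfl
    · have := pow_period β h.1; rwa [S.ph] at this
    · have := pow_period β k.1; rwa [S.pk] at this
  rw [h1, pow_succ', Perm.mul_apply, h2, Perm.mul_apply, ← Perm.mul_apply β, ← pow_succ', ← h1, h3]

theorem lt_new_period (b : V) (hb : b = h.1 ∨ b = k.1) :
    L < minimalPeriod (swap h.1 k.1 * β) b := by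
  by_contra hle
  rw [not_lt] at hle
  have hpos := period_pos (swap h.1 k.1 * β) b
  have hp := pow_period (swap h.1 k.1 * β) b
  rcases hle.lt_or_eq with h1 | h1
  · rw [S.new_pow_of_lt hv b hb _ h1] at hp
    have h2 := dvd_of_pow_eq β hp
    have h3 : minimalPeriod β b = L := by
      rcases hb with rfl | rfl
      · exact S.ph
      · exact S.pk
    rw [h3] at h2
    exact absurd (Nat.le_of_dvd hpos h2) (by omega)
  · rw [h1, S.new_pow_L hv b hb] at hp
    rcases hb with rfl | rfl
    · rw [swap_apply_left] at hp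
      exact hk hp.symm
    · rw [swap_apply_right] at hp
      exact hk hp

theorem near_of_apply (b : V) (hb : Near β h k (β b)) : Near β h k b := by
  obtain ⟨i, hi⟩ := hb
  have hL := S.pos
  have h3 : (β ^ L) h.1 = h.1 := by have := pow_period β h.1; rwa [S.ph] at this
  have h4 : (β ^ L) k.1 = k.1 := by have := pow_period β k.1; rwa [S.pk] at this
  refine ⟨i + (L - 1), ?_⟩
  have h5 : ∀ c, (β ^ (i + (L - 1) + 1)) c = (β ^ i) ((β ^ L) c) := by
    intro c
    rw [← Perm.mul_apply, ← pow_add]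
    congr 2
    omega
  rcases hi with hi | hi
  · left
    apply β.injective
    rw [← hi, ← Perm.mul_apply, ← pow_succ', h5, h3]
  · right
    apply β.injective
    rw [← hi, ← Perm.mul_apply, ← pow_succ', h5, h4]

theorem new_pow_far (b : V) (hb : ¬ Near β h k b) (n : ℕ) :
    ((swap h.1 k.1 * β) ^ n) b = (β ^ n) b ∧ ¬ Near β h k ((β ^ n) b) := by
  induction n with
  | zero => exact ⟨rfl, hb⟩
  | succ n ih =>
    have h1 : ¬ Near β h k ((β ^ (n + 1)) b) := by
      rw [pow_succ', Perm.mul_apply]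
      exact fun h2 => ih.2 (S.near_of_apply hv _ h2)
    refine ⟨?_, h1⟩
    rw [pow_succ', Perm.mul_apply, ih.1, Perm.mul_apply, ← Perm.mul_apply β, ← pow_succ',
      swap_apply_of_ne_of_ne]
    · intro e
      exact h1 ⟨0, Or.inl e.symm⟩
    · intro e
      exact h1 ⟨0, Or.inr e.symm⟩

theorem near_exists (b : V) (hb : Near β h k b) :
    ∃ i < L, (β ^ i) h.1 = b ∨ (β ^ i) k.1 = b := by
  obtain ⟨i, hi⟩ := hb
  refine ⟨i % L, Nat.mod_lt _ S.pos, ?_⟩
  have h3 : (β ^ L) h.1 = h.1 := by have := pow_period β h.1; rwa [S.ph] at this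
  have h4 : (β ^ L) k.1 = k.1 := by have := pow_period β k.1; rwa [S.pk] at this
  have h5 : ∀ c, (β ^ L) c = c → (β ^ i) c = (β ^ (i % L)) c := by
    intro c hc
    conv_lhs => rw [← Nat.mod_add_div i L, pow_add, Perm.mul_apply,
      pow_eq_of_dvd β hc (Dvd.intro (i / L) rfl)]
  rcases hi with hi | hi
  · left; rw [← h5 _ h3, hi]
  · right; rw [← h5 _ h4, hi]

theorem period_lt_near (b : V) (hb : Near β h k b) :
    minimalPeriod β b < minimalPeriod (swap h.1 k.1 * β) b := by
  obtain ⟨i, hi, e⟩ := S.near_exists hv b hb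
  rcases e with e | e
  · rw [← e, period_pow, S.ph]
    rw [← S.new_pow_of_lt hv h.1 (Or.inl rfl) i hi, period_pow]
    exact S.lt_new_period hv _ (Or.inl rfl)
  · rw [← e, period_pow, S.pk]
    rw [← S.new_pow_of_lt hv k.1 (Or.inr rfl) i hi, period_pow]
    exact S.lt_new_period hv _ (Or.inr rfl)

theorem period_eq_far (b : V) (hb : ¬ Near β h k b) :
    minimalPeriod β b = minimalPeriod (swap h.1 k.1 * β) b := by
  rw [Function.minimalPeriod_eq_minimalPeriod_iff]
  intro n
  rw [isPeriodic_iff, isPeriodic_iff, (S.new_pow_far hv b hb n).1]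

theorem sum_period_lt :
    ∑ b, minimalPeriod β b < ∑ b, minimalPeriod (swap h.1 k.1 * β) b := by
  apply Finset.sum_lt_sum
  · intro b _
    by_cases hb : Near β h k b
    · exact (S.period_lt_near hv b hb).le
    · exact (S.period_eq_far hv b hb).le
  · exact ⟨h.1, Finset.mem_univ _, S.period_lt_near hv _ ⟨0, Or.inl rfl⟩⟩

/-! the new automorphism on half-edges -/

theorem hat_pow_of_lt (a : V × Fin 3) (ha : a.1 = h.1 ∨ a.1 = k.1) (n : ℕ) (hn : n < L) :
    ((hat h k hk v * prodShear β γ) ^ n) a = ((prodShear β γ : Perm (V × Fin 3)) ^ n) a := by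
  induction n with
  | zero => rfl
  | succ n ih =>
    rw [pow_succ', Perm.mul_apply, ih (by omega), Perm.mul_apply,
      ← Perm.mul_apply (prodShear β γ), ← pow_succ', hat_other]
    · rw [shear_pow_fst]
      rcases ha with e | e
      · rw [e]
        intro e
        have h1 := dvd_of_pow_eq β e
        rw [S.ph] at h1
        exact absurd (Nat.le_of_dvd (Nat.succ_pos n) h1) (by omega)
      · rw [e]
        exact S.ne' (n + 1)
    · rw [shear_pow_fst]
      rcases ha with e | e
      · rw [e]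
        exact S.ne (n + 1)
      · rw [e]
        intro e
        have h1 := dvd_of_pow_eq β e
        rw [S.pk] at h1
        exact absurd (Nat.le_of_dvd (Nat.succ_pos n) h1) (by omega)

theorem hat_pow_L (a : V × Fin 3) (ha : a.1 = h.1 ∨ a.1 = k.1) :
    ((hat h k hk v * prodShear β γ) ^ L) a =
      hat h k hk v (((prodShear β γ : Perm (V × Fin 3)) ^ L) a) := by
  have h1 : L = (L - 1) + 1 := by have := S.pos; omega
  have h2 := S.hat_pow_of_lt hv a ha (L - 1) (by have := S.pos; omega)
  rw [h1, pow_succ', Perm.mul_apply, h2, Perm.mul_apply, ← Perm.mul_apply (prodShear β γ),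
    ← pow_succ']

theorem hat_pow_2L (a : V × Fin 3) (ha : a.1 = h.1 ∨ a.1 = k.1) :
    ((hat h k hk v * prodShear β γ) ^ (2 * L)) a = a := by
  have hvv : ∀ s, v (vA (v (vA s))) = s := by
    rcases hv with rfl | rfl <;> decide
  rw [two_mul, pow_add, Perm.mul_apply]
  rcases out_cases h k hk a ha with e | e | ⟨s, e⟩
  · rw [e, S.hat_pow_L hv h (Or.inl rfl), S.fh, hat_left, S.hat_pow_L hv k (Or.inr rfl), S.fk,
      hat_right]
  · rw [e, S.hat_pow_L hv k (Or.inr rfl), S.fk, hat_right, S.hat_pow_L hv h (Or.inl rfl), S.fh,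
      hat_left]
  · rw [e, S.hat_pow_L hv _ (out_vertex h k hk s), S.act, hat_out,
      S.hat_pow_L hv _ (out_vertex h k hk _), S.act, hat_out, hvv]

theorem hat_pow_far (a : V × Fin 3) (ha : ¬ Near β h k a.1) (n : ℕ) :
    ((hat h k hk v * prodShear β γ) ^ n) a = ((prodShear β γ : Perm (V × Fin 3)) ^ n) a := by
  induction n with
  | zero => rfl
  | succ n ih =>
    have h1 := (S.new_pow_far hv a.1 ha (n + 1)).2
    rw [pow_succ', Perm.mul_apply, ih, Perm.mul_apply, ← Perm.mul_apply (prodShear β γ),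
      ← pow_succ', hat_other]
    · rw [shear_pow_fst]
      intro e
      exact h1 ⟨0, Or.inl e.symm⟩
    · rw [shear_pow_fst]
      intro e
      exact h1 ⟨0, Or.inr e.symm⟩

theorem hat_order (s : ℕ) (hs : (prodShear β γ : Perm (V × Fin 3)) ^ (2 ^ s) = 1) :
    (hat h k hk v * prodShear β γ) ^ (2 ^ (s + 1)) = 1 := by
  have hβ : (β ^ (2 ^ s)) h.1 = h.1 := by
    have h1 := shear_pow_fst β γ (2 ^ s) h
    rw [hs] at h1
    exact h1.symm
  have hL : L ∣ 2 ^ s := by
    have := dvd_of_pow_eq β hβ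
    rwa [S.ph] at this
  ext1 a
  by_cases ha : Near β h k a.1
  · obtain ⟨i, hi, e⟩ := S.near_exists hv a.1 ha
    have hd : 2 * L ∣ 2 ^ (s + 1) := by
      rw [pow_succ, mul_comm]
      exact Nat.mul_dvd_mul hL (dvd_refl 2)
    -- `a` comes from a half-edge at one of the two vertices
    obtain ⟨b, rfl⟩ := ((prodShear β γ : Perm (V × Fin 3)) ^ i).surjective a
    have hb : b.1 = h.1 ∨ b.1 = k.1 := by
      rw [shear_pow_fst] at e
      rcases e with e | e
      · left; exact ((β ^ i).injective e).symm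
      · right; exact ((β ^ i).injective e).symm
    rw [← S.hat_pow_of_lt hv b hb i hi, ← Perm.mul_apply, ← pow_add, add_comm, pow_add,
      Perm.mul_apply, pow_eq_of_dvd _ (S.hat_pow_2L hv b hb) hd]
    rfl
  · rw [S.hat_pow_far hv a ha, pow_succ, mul_comm, pow_mul', hs, one_pow]

end Step

end Pool.Agent.MP_c46de2_gt
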